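import Pool.Agent.J4H63.GO.Fix

/-!
# Proof systems for the sets in `coNP`, relative to a generic oracle
-/

namespace Pool.Agent.J4H63.GO

open Pool.Agent.NPC Pool.Agent.H628R3.RO Pool.Agent.J4H63.ESY Filter

/-- every nonempty set in `coNP` relative to `X` has an optimal proof system relative to `X` -/
def AllOptimal (X : Oracle) : Prop :=
  ∀ L : Set (List Bool), L.Nonempty → IsCoNP X L → ∃ P, IsOptimal X L P

/-- every nonempty set in `coNP` relative to `X` has a `p`-optimal proof system relative to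
`X` -/
def AllPOptimal (X : Oracle) : Prop :=
  ∀ L : Set (List Bool), L.Nonempty → IsCoNP X L → ∃ P, IsPOptimal X L P

theorem p_bits {α β : Type} [TEnc α] [TEnc β] {f : α → β} (hf : Poly f) :
    Poly (fun a => bits (f a)) :=
  PC.comp (ea := bits) (eb := fun x : List Bool => x) (ec := bits) (g := fun x => x)
    (f := fun a => bits (f a)) PC.rawIn hf

/-- the pair coded by a string -/
def dec (y : List Bool) : List Bool × Facts := (unbits (List Bool × Facts) y).getD ([], [])

/-- the string is a code -/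
def isCode (y : List Bool) : Bool := (unbits (List Bool × Facts) y).isSome

theorem p_dec {α : Type} [TEnc α] {y : α → List Bool} (hy : Poly y) : Poly (fun a => dec (y a)) :=
  (p_elim (o := fun a => unbits (List Bool × Facts) (y a)) (g := fun _ => (([], []) : List Bool × Facts))
    (h := fun _ z => z) (poly_unbits.comp hy) (NPC.Poly.const _) (Poly.snd Poly.id)).congr
    fun a => by unfold dec; cases unbits (List Bool × Facts) (y a) <;> rfl

theorem p_isCode {α : Type} [TEnc α] {y : α → List Bool} (hy : Poly y) :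
    Poly (fun a => isCode (y a)) := Poly.isSome (poly_unbits.comp hy)

theorem dec_bits (z : List Bool × Facts) : dec (bits z) = z := by
  unfold dec
  rw [unbits_bits]
  rfl

theorem isCode_bits (z : List Bool × Facts) : isCode (bits z) = true := by
  unfold isCode
  rw [unbits_bits]
  rfl

theorem bits_dec {y : List Bool} (h : isCode y = true) : bits (dec y) = y := by
  unfold isCode at h
  obtain ⟨z, hz⟩ := Option.isSome_iff_exists.1 h
  have h1 := bits_of_unbits hz
  unfold dec
  rw [hz]
  exact h1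

theorem isCode_nil : isCode [] = false := by
  by_contra h
  have h1 : isCode [] = true := by simpa using h
  have h2 := bits_dec h1
  have h3 := bits_length (dec [])
  rw [h2] at h3
  have h4 := sz_pos (dec [])
  simp at h3
  omega

theorem length_dec {y : List Bool} (h : isCode y = true) : (dec y).1.length ≤ y.length := by
  have h1 := bits_length (dec y)
  rw [bits_dec h] at h1
  have h2 := length_lt_sz (dec y).1
  have h3 : sz (dec y) = sz (dec y).1 + sz (dec y).2 + 1 := by
    rw [← sz_pair]
  omega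

/-- the pairs `(x, ρ)` such that the facts `ρ` force `x` to be in the set -/
def KL (V : Alg) (p : Polynomial ℕ) (E : Oracle) : Set (List Bool) :=
  {y | isCode y = true → ∀ B, Sat (dec y).2 B → (dec y).1 ∈ CoL V p (join B E)}

theorem nil_mem_KL (V : Alg) (p : Polynomial ℕ) (E : Oracle) : [] ∈ KL V p E := by
  intro h
  rw [isCode_nil] at h
  simp at h

theorem not_mem_KL {V : Alg} {p : Polynomial ℕ} {E : Oracle} {y : List Bool} :
    y ∉ KL V p E ↔ isCode y = true ∧ ∃ w a : List Bool, w.length ≤ p.eval (dec y).1.length ∧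
      a.length ≤ V.p.eval (2 * (dec y).1.length + 1 + w.length) ∧
      ∃ ρ, repE V E (dec y).2 (pairBits (dec y).1 w) a = some ([true], ρ) := by
  unfold KL CoL
  simp only [Set.mem_ofPred_eq, not_forall, not_not, ne_eq, exists_prop]
  refine and_congr_right fun _ => ?_
  constructor
  · rintro ⟨B, hB, w, hw, h⟩
    obtain ⟨a, ρ, -, h2, h3, -⟩ := repE_complete hB h
    refine ⟨w, a, hw, ?_, ρ, h2⟩
    rw [length_pairBits] at h3
    exact h3.le
  · rintro ⟨w, a, hw, -, ρ, h⟩
    obtain ⟨h1, B, hB⟩ := repE_sound h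
    exact ⟨B, (h1 B hB).1, w, hw, (h1 B hB).2⟩

theorem isCoNP_KL (V : Alg) (p : Polynomial ℕ) (E : Oracle) : IsCoNP E (KL V p E) := by
  have hx : Poly (fun t : List Bool × List Bool => (dec t.1).1) := Poly.fst (p_dec (Poly.fst Poly.id))
  have hw : Poly (fun t : List Bool × List Bool => (unpair t.2).1) :=
    Poly.fst (poly_unpair.comp (Poly.snd Poly.id))
  have ha : Poly (fun t : List Bool × List Bool => (unpair t.2).2) :=
    Poly.snd (poly_unpair.comp (Poly.snd Poly.id))
  have hin : Poly (fun t : List Bool × List Bool => pairBits (dec t.1).1 (unpair t.2).1) :=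
    H622R2.poly_pairBits hx hw
  refine isNP_of_tt E _
    (Q := fun t => (qs V (pairBits (dec t.1).1 (unpair t.2).1) (unpair t.2).2).map
      (fun s => s.tail))
    (T := fun t => isCode t.1.1 && (decide ((unpair t.1.2).1.length ≤ p.eval (dec t.1.1).1.length) &&
      (rep V (dec t.1.1).2 (pairBits (dec t.1.1).1 (unpair t.1.2).1) (unpair t.1.2).2 t.2).elim
        false (fun z => decide (z.1 = [true])))) ?_ ?_
    (2 * p + 1 + V.p.comp (2 * Polynomial.X + 1 + p)) fun y => ?_
  · exact NPC.Poly.map (F := fun _ s => s.tail) (p_qs V hin ha) (Poly.tail (Poly.snd Poly.id))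
  · have h1 : Poly (fun t : (List Bool × List Bool) × List Bool => t.1) := Poly.fst Poly.id
    refine Poly.and (p_isCode (Poly.fst h1)) (Poly.and ?_ ?_)
    · exact Poly.decide_le (Poly.length (hw.comp h1))
        (UPoly.toPoly (UPoly.eval (UPoly.length (hx.comp h1)) p))
    · refine p_elim (p_rep V (Poly.snd (p_dec (Poly.fst h1))) (hin.comp h1) (ha.comp h1)
        (Poly.snd Poly.id)) (NPC.Poly.const false) ?_
      exact Poly.decide_eq (Poly.fst (Poly.snd Poly.id)) (NPC.Poly.const _)
  · rw [Set.mem_compl_iff, not_mem_KL]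
    have e0 : ∀ w a : List Bool, (isCode y && (decide (w.length ≤ p.eval (dec y).1.length) &&
        (rep V (dec y).2 (pairBits (dec y).1 w) a ((((qs V (pairBits (dec y).1 w) a).map
          (fun s => s.tail))).map E)).elim false (fun z => decide (z.1 = [true])))) = true ↔
        isCode y = true ∧ w.length ≤ p.eval (dec y).1.length ∧
          ∃ ρ, repE V E (dec y).2 (pairBits (dec y).1 w) a = some ([true], ρ) := by
      intro w a
      rw [Bool.and_eq_true, Bool.and_eq_true, decide_eq_true_eq]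
      refine and_congr_right fun _ => and_congr_right fun _ => ?_
      have e1 : rep V (dec y).2 (pairBits (dec y).1 w) a ((((qs V (pairBits (dec y).1 w) a).map
          (fun s => s.tail))).map E) = repE V E (dec y).2 (pairBits (dec y).1 w) a := by
        simp only [repE, List.map_map]
        rfl
      rw [e1]
      cases hr : repE V E (dec y).2 (pairBits (dec y).1 w) a with
      | none => simp
      | some z =>
        obtain ⟨z, ρ⟩ := z
        simp
    constructor
    · rintro ⟨hc, w, a, h1, h2, h3⟩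
      refine ⟨pairBits w a, ?_, ?_⟩
      · rw [length_pairBits]
        have h4 := length_dec hc
        have h5 := NPC.eval_mono p h4
        have h6 : a.length ≤ V.p.eval (2 * y.length + 1 + p.eval y.length) :=
          h2.trans (NPC.eval_mono V.p (by omega))
        simp only [Polynomial.eval_add, Polynomial.eval_mul, Polynomial.eval_ofNat,
          Polynomial.eval_one, Polynomial.eval_comp, Polynomial.eval_X]
        omega
      · simp only [unpair_pairBits]
        exact (e0 w a).2 ⟨hc, h1, h3⟩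
    · rintro ⟨wit, -, h⟩
      simp only at h
      obtain ⟨hc, h1, ρ, h2⟩ := (e0 _ _).1 h
      refine ⟨hc, _, _, h1, ?_, ρ, h2⟩
      have h3 : valid V (pairBits (dec y).1 (unpair wit).1) (unpair wit).2 = true := by
        unfold repE rep at h2
        split_ifs at h2 with h4
        rw [Bool.and_eq_true] at h4
        exact h4.1
      simp only [valid, Bool.and_eq_true, decide_eq_true_eq] at h3
      have h4 := h3.2.2
      rw [length_pairBits] at h4
      exact h4.le

/-- keep the first part of a coded pair if the facts are true for `G` -/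
def keep (G : Oracle) (x₀ y : List Bool) : List Bool :=
  if (isCode y && (((dec y).2.zip ((dec y).2.map (fun f => G f.1))).all
    (fun t => decide (t.1.2 = t.2)))) = true then (dec y).1 else x₀

theorem isFP_keep (G E : Oracle) (x₀ : List Bool) : IsFP (join G E) (keep G x₀) := by
  have h := IsFP.tt (A := join G E) (Q := fun y => (dec y).2.map (fun f => false :: f.1))
    (H := fun t => if (isCode t.1 && (((dec t.1).2.zip t.2).all
      (fun t => decide (t.1.2 = t.2)))) = true then (dec t.1).1 else x₀) ?_ ?_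
  · refine (congrArg (IsFP (join G E)) ?_).mp h
    funext y
    simp only [keep, List.map_map]
    rfl
  · exact NPC.Poly.map (F := fun (_ : List Bool) (f : List Bool × Bool) => false :: f.1)
      (Poly.snd (p_dec Poly.id)) (Poly.cons (NPC.Poly.const _) (Poly.fst (Poly.snd Poly.id)))
  · have h1 : Poly (fun t : List Bool × List Bool => dec t.1) := p_dec (Poly.fst Poly.id)
    refine Poly.ite (p := fun t : List Bool × List Bool => (isCode t.1 &&
      (((dec t.1).2.zip t.2).all (fun t => decide (t.1.2 = t.2)))) = true)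
      (Poly.decide_bool (Poly.and (p_isCode (Poly.fst Poly.id)) ?_)) (Poly.fst h1)
      (NPC.Poly.const x₀)
    refine Poly.all (p := fun (_ : List Bool × List Bool) (t : (List Bool × Bool) × Bool) =>
      decide (t.1.2 = t.2)) (Poly.zip (Poly.snd h1) (Poly.snd Poly.id)) ?_
    exact Poly.decide_eq (Poly.snd (Poly.fst (Poly.snd Poly.id))) (Poly.snd (Poly.snd Poly.id))

theorem all_zip_iff (G : Oracle) (ρ : Facts) : ((ρ.zip (ρ.map (fun f => G f.1))).all
    (fun t => decide (t.1.2 = t.2))) = true ↔ Sat ρ G := by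
  induction ρ with
  | nil => simp [Sat]
  | cons f ρ ih =>
    have h : Sat (f :: ρ) G ↔ G f.1 = f.2 ∧ Sat ρ G := by
      unfold Sat
      simp
    rw [h, ← ih]
    simp only [List.map_cons, List.zip_cons_cons, List.all_cons, Bool.and_eq_true,
      decide_eq_true_eq]
    exact and_congr_left fun _ => eq_comm

theorem keep_eq {G : Oracle} {x₀ x : List Bool} {ρ : Facts} (h : Sat ρ G) :
    keep G x₀ (bits (x, ρ)) = x := by
  unfold keep
  rw [isCode_bits, dec_bits, (all_zip_iff G ρ).2 h]
  rfl

theorem keep_mem {V : Alg} {p : Polynomial ℕ} {G E : Oracle} {x₀ y : List Bool}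
    (hx₀ : x₀ ∈ CoL V p (join G E)) (hy : y ∈ KL V p E) : keep G x₀ y ∈ CoL V p (join G E) := by
  unfold keep
  split_ifs with h
  · rw [Bool.and_eq_true, all_zip_iff] at h
    exact hy h.1 G h.2
  · exact hx₀

/-- all facts about short strings -/
def table (G : Oracle) (n : ℕ) : Facts := (H628R3.RO.strs n).map (fun x => (x, G x))

theorem sat_table (G : Oracle) (n : ℕ) : Sat (table G n) G := by
  intro f hf
  obtain ⟨x, -, rfl⟩ := List.mem_map.1 hf
  rfl

theorem eq_of_sat_table {G B : Oracle} {n : ℕ} (h : Sat (table G n) B) (x : List Bool)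
    (hx : x.length ≤ n) : G x = B x :=
  (h (x, G x) (List.mem_map.2 ⟨x, H628R3.RO.mem_strs.2 hx, rfl⟩)).symm

/-- the proof system for the set in the generic extension -/
theorem isProofSystem_keep {V : Alg} {p : Polynomial ℕ} {G E : Oracle} {x₀ : List Bool}
    {P : List Bool → List Bool} (hP : IsProofSystem E (KL V p E) P)
    (hx₀ : x₀ ∈ CoL V p (join G E)) :
    IsProofSystem (join G E) (CoL V p (join G E)) (fun u => keep G x₀ (P u)) := by
  refine ⟨IsFP.comp (isFP_keep G E x₀) ((oneRed_right G E).isFP hP.1), ?_⟩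
  ext x
  constructor
  · rintro ⟨u, rfl⟩
    exact keep_mem hx₀ (hP.2 ▸ ⟨u, rfl⟩)
  · intro hx
    obtain ⟨qb, hqb⟩ := coL_congr V p E
    have h1 : bits (x, table G (qb.eval x.length)) ∈ KL V p E := by
      intro _ B hB
      rw [dec_bits] at hB ⊢
      exact hqb G B x (fun s hs => eq_of_sat_table hB s hs) hx
    rw [← hP.2] at h1
    obtain ⟨u, hu⟩ := h1
    refine ⟨u, ?_⟩
    simp only
    rw [hu, keep_eq (sat_table _ _)]

/-- the closed condition that `N` computes a total function with values in the set given by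
the verifier -/
def SndV (N V : Alg) (p : Polynomial ℕ) (E : Oracle) : Set Oracle :=
  {B | ∀ w, ∃ z, N.out (join B E) w = some z ∧ z ∈ CoL V p (join B E)}

theorem isClosed_sndV (N V : Alg) (p : Polynomial ℕ) (E : Oracle) :
    IsClosed (SndV N V p E) := by
  obtain ⟨qb, h⟩ := out_join_congr N E
  obtain ⟨qv, hv⟩ := coL_congr V p E
  obtain ⟨b, hb⟩ := N.out_length
  refine isClosed_forall (R := fun w B => ∃ z, N.out (join B E) w = some z ∧
    z ∈ CoL V p (join B E)) fun w =>
    ⟨qb.eval w.length + qv.eval (b.eval w.length), loc_of_imp fun B B' hB hR => ?_⟩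
  obtain ⟨z, h1, h2⟩ := hR
  refine ⟨z, ?_, ?_⟩
  · rw [← h B B' w w.length le_rfl fun x hx => hB x (by
      change x.length ≤ qb.eval w.length + qv.eval (b.eval w.length); omega)]
    exact h1
  · refine hv B B' z (fun s hs => hB s ?_) h2
    have h3 := NPC.eval_mono qv (hb _ _ _ h1)
    change s.length ≤ qb.eval w.length + qv.eval (b.eval w.length)
    omega

/-- the proof system for the pairs -/
def sysB (N : Alg) (E : Oracle) (σ : Facts) (y : List Bool) : List Bool :=
  (repE N E σ (unpair y).1 (unpair y).2).elim [] (fun z => bits z)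

theorem isFP_sysB (N : Alg) (E : Oracle) (σ : Facts) : IsFP E (sysB N E σ) := by
  have hH : Poly (fun p : List Bool × Option (List Bool × Facts) =>
      p.2.elim [] (fun z => bits z)) :=
    p_elim (o := fun p : List Bool × Option (List Bool × Facts) => p.2)
      (g := fun _ => []) (h := fun _ z => bits z) (Poly.snd Poly.id) (NPC.Poly.const _)
      (p_bits (Poly.snd Poly.id))
  exact isFP_repE N E (NPC.Poly.const σ) (Poly.fst poly_unpair) (Poly.snd poly_unpair) hH

theorem sysB_mem {N V : Alg} {p : Polynomial ℕ} {E : Oracle} {σ : Facts}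
    (h : ∀ B, Sat σ B → B ∈ SndV N V p E) (y : List Bool) : sysB N E σ y ∈ KL V p E := by
  unfold sysB
  cases hr : repE N E σ (unpair y).1 (unpair y).2 with
  | none => exact nil_mem_KL V p E
  | some zρ =>
    obtain ⟨z, ρ⟩ := zρ
    change bits (z, ρ) ∈ KL V p E
    obtain ⟨h1, -⟩ := repE_sound hr
    intro _ B hB
    rw [dec_bits] at hB ⊢
    obtain ⟨h2, h3⟩ := h1 B hB
    obtain ⟨z', h4, h5⟩ := h B h2 (unpair y).1
    rw [h3, Option.some.injEq] at h4
    change z ∈ _
    rw [h4]
    exact h5

theorem sysB_complete {N : Alg} {G E : Oracle} {σ : Facts} {v z x₀ : List Bool} (hσ : Sat σ G)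
    (h : N.out (join G E) v = some z) : ∃ a : List Bool,
      keep G x₀ (sysB N E σ (pairBits v a)) = z ∧ a.length < N.p.eval v.length ∧
        (trAlg N).out (join G E) v = some a := by
  obtain ⟨a, ρ, h1, h2, h3, h4⟩ := repE_complete hσ h
  refine ⟨a, ?_, h3, h4⟩
  unfold sysB
  rw [unpair_pairBits, h2]
  exact keep_eq h1

theorem upV {V : Alg} {p : Polynomial ℕ} {G E : Oracle} {P : List Bool → List Bool}
    (hopt : IsOptimal E (KL V p E) P) (hne : (CoL V p (join G E)).Nonempty)
    (hG : ∀ N : Alg, G ∈ SndV N V p E → ∃ σ : Facts, Sat σ G ∧ ∀ B, Sat σ B → B ∈ SndV N V p E) :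
    ∃ P', IsOptimal (join G E) (CoL V p (join G E)) P' := by
  obtain ⟨x₀, hx₀⟩ := hne
  refine ⟨_, isProofSystem_keep hopt.1 hx₀, fun Q hQ => ?_⟩
  obtain ⟨⟨N, hN⟩, hr⟩ := hQ
  obtain ⟨σ, hσ, hσ'⟩ := hG N fun w => ⟨_, hN w, hr ▸ ⟨w, rfl⟩⟩
  obtain ⟨q, hq⟩ := hopt.2 _ (isProofSystem_mix hopt.1 (isFP_sysB N E σ) (sysB_mem hσ'))
  refine ⟨q.comp (2 * Polynomial.X + 2 + N.p), fun w => ?_⟩
  obtain ⟨a, h1, h2, -⟩ := sysB_complete (x₀ := x₀) hσ (hN w)
  obtain ⟨v, h3, h4⟩ := hq (false :: pairBits w a)
  refine ⟨v, ?_, h4.trans ?_⟩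
  · change keep G x₀ (P v) = Q w
    rw [h3, mix_false, h1]
  · rw [Polynomial.eval_comp]
    apply NPC.eval_mono
    rw [List.length_cons, length_pairBits]
    simp only [Polynomial.eval_add, Polynomial.eval_mul, Polynomial.eval_ofNat, Polynomial.eval_X]
    omega

theorem upVP {V : Alg} {p : Polynomial ℕ} {G E : Oracle} {P : List Bool → List Bool}
    (hopt : IsPOptimal E (KL V p E) P) (hne : (CoL V p (join G E)).Nonempty)
    (hG : ∀ N : Alg, G ∈ SndV N V p E → ∃ σ : Facts, Sat σ G ∧ ∀ B, Sat σ B → B ∈ SndV N V p E) :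
    ∃ P', IsPOptimal (join G E) (CoL V p (join G E)) P' := by
  obtain ⟨x₀, hx₀⟩ := hne
  refine ⟨_, isProofSystem_keep hopt.1 hx₀, fun Q hQ => ?_⟩
  obtain ⟨⟨N, hN⟩, hr⟩ := hQ
  obtain ⟨σ, hσ, hσ'⟩ := hG N fun w => ⟨_, hN w, hr ▸ ⟨w, rfl⟩⟩
  obtain ⟨h, hh, hh'⟩ := hopt.2 _ (isProofSystem_mix hopt.1 (isFP_sysB N E σ) (sysB_mem hσ'))
  have k3 : ∀ w, ∃ a, keep G x₀ (sysB N E σ (pairBits w a)) = Q w ∧
      (trAlg N).out (join G E) w = some a := fun w => by
    obtain ⟨a, h1, -, h2⟩ := sysB_complete (x₀ := x₀) hσ (hN w)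
    exact ⟨a, h1, h2⟩
  choose ta hta1 hta2 using k3
  have f2 : IsFP (join G E) ta := ⟨trAlg N, hta2⟩
  have f3 : IsFP (join G E) h := (oneRed_right G E).isFP hh
  have f4 : IsFP (join G E) (fun w => pairBits w (ta w)) :=
    IsFP.pair (IsFP.of_poly Poly.id) f2
  have f5 : IsFP (join G E) (fun y : List Bool => false :: y) :=
    IsFP.of_poly (Poly.cons (NPC.Poly.const _) Poly.id)
  refine ⟨fun w => h (false :: pairBits w (ta w)), IsFP.comp f3 (IsFP.comp f5 f4), fun w => ?_⟩
  change keep G x₀ (P (h (false :: pairBits w (ta w)))) = Q w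
  rw [hh', mix_false, hta1]

/-- invariance for all sets in `coNP` -/
theorem invariant (E : Oracle) : ∀ᶠ G in residual Oracle,
    (AllOptimal (join G E) ↔ AllOptimal E) ∧ (AllPOptimal (join G E) ↔ AllPOptimal E) := by
  have h1 : ∀ᶠ G in residual Oracle, ∀ (V : Alg) (p : Polynomial ℕ),
      ((∃ P, IsOptimal (join G E) (CoL V p E) P) ↔ ∃ P, IsOptimal E (CoL V p E) P) ∧
      ((∃ P, IsPOptimal (join G E) (CoL V p E) P) ↔ ∃ P, IsPOptimal E (CoL V p E) P) :=
    eventually_countable_forall.2 fun V => eventually_countable_forall.2 fun p =>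
      fixed E (CoL V p E)
  have h2 : ∀ᶠ G in residual Oracle, ∀ (V : Alg) (p : Polynomial ℕ) (N : Alg),
      G ∈ SndV N V p E → ∃ σ : Facts, Sat σ G ∧ ∀ B, Sat σ B → B ∈ SndV N V p E :=
    eventually_countable_forall.2 fun V => eventually_countable_forall.2 fun p =>
      eventually_countable_forall.2 fun N => forced (isClosed_sndV N V p E)
  filter_upwards [h1, h2] with G hG hG'
  refine ⟨⟨fun h L hne hL => ?_, fun h L hne hL => ?_⟩, ⟨fun h L hne hL => ?_, fun h L hne hL => ?_⟩⟩
  · obtain ⟨V, p, rfl⟩ := exists_coL hL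
    exact (hG V p).1.1 (h _ hne ((oneRed_right G E).isCoNP hL))
  · obtain ⟨V, p, rfl⟩ := exists_coL hL
    obtain ⟨P, hP⟩ := h (KL V p E) ⟨[], nil_mem_KL V p E⟩ (isCoNP_KL V p E)
    exact upV hP hne (hG' V p)
  · obtain ⟨V, p, rfl⟩ := exists_coL hL
    exact (hG V p).2.1 (h _ hne ((oneRed_right G E).isCoNP hL))
  · obtain ⟨V, p, rfl⟩ := exists_coL hL
    obtain ⟨P, hP⟩ := h (KL V p E) ⟨[], nil_mem_KL V p E⟩ (isCoNP_KL V p E)
    exact upVP hP hne (hG' V p)

theorem OneRed.isProofSystem_iff {X Y : Oracle} (h : OneRed X Y) (h' : OneRed Y X)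
    (L : Set (List Bool)) (P : List Bool → List Bool) :
    IsProofSystem X L P ↔ IsProofSystem Y L P :=
  ⟨fun hP => ⟨h.isFP hP.1, hP.2⟩, fun hP => ⟨h'.isFP hP.1, hP.2⟩⟩

theorem allOptimal_iff_of {X Y : Oracle} (h : OneRed X Y) (h' : OneRed Y X) :
    (AllOptimal X ↔ AllOptimal Y) ∧ (AllPOptimal X ↔ AllPOptimal Y) := by
  have e1 : ∀ F, IsFP X F ↔ IsFP Y F := fun F => ⟨h.isFP, h'.isFP⟩
  have e2 : ∀ L, IsCoNP X L ↔ IsCoNP Y L := fun L => ⟨h.isCoNP, h'.isCoNP⟩
  have e3 : ∀ L P, IsProofSystem X L P ↔ IsProofSystem Y L P := h.isProofSystem_iff h'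
  unfold AllOptimal AllPOptimal IsOptimal IsPOptimal
  simp only [e1, e2, e3, and_self]

end Pool.Agent.J4H63.GO
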