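import Pool.Agent.NPC.Sat
import Pool.Agent.J4H63.GO.Inv

/-!
# Propositional tautologies, Cook-Reckhow proof systems

Formulas with the connectives `¬` and `→` are written in Polish notation.
-/

namespace Pool.Agent.J4H63.GO

open Pool.Agent.NPC Pool.Agent.H628R3.RO Pool.Agent.J4H63.ESY

/-- propositional formulas built from variables with `¬` and `→` -/
inductive Fml : Type
  | var (n : ℕ) : Fml
  | neg (φ : Fml) : Fml
  | imp (φ ψ : Fml) : Fml

/-- the truth value of a formula -/
def Fml.eval (v : ℕ → Bool) : Fml → Bool
  | Fml.var n => v n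
  | Fml.neg φ => !(φ.eval v)
  | Fml.imp φ ψ => !(φ.eval v) || ψ.eval v

/-- The symbols of a formula in Polish notation: `none` is `¬`, `some none` is `→`,
`some (some n)` is the variable number `n`. -/
def Fml.toks : Fml → List (Option (Option ℕ))
  | Fml.var n => [some (some n)]
  | Fml.neg φ => none :: φ.toks
  | Fml.imp φ ψ => some none :: (φ.toks ++ ψ.toks)

/-- The code of a formula: the standard coding of a list of symbols by a bit string (the numbers
of the variables are written in binary). -/
def Fml.code (φ : Fml) : List Bool := bits φ.toks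

/-- The set of the codes of the tautologies. -/
def TAUT : Set (List Bool) := {x | ∃ φ : Fml, x = φ.code ∧ ∀ v, φ.eval v = true}

/-- one symbol, read from the right with a stack of truth values -/
def stp (l : List ℕ) (t : Option (Option ℕ)) (s : Option (List Bool)) : Option (List Bool) :=
  s.elim none (fun s => t.elim (s.head?.elim none (fun b => some ((!b) :: s.tail)))
    (fun u => u.elim (s.head?.elim none (fun b => s.tail.head?.elim none
      (fun c => some ((!b || c) :: s.tail.tail)))) (fun n => some (decide (n ∈ l) :: s))))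

/-- the evaluation of a list of symbols, `l` is the list of the true variables -/
def evs (l : List ℕ) (ts : List (Option (Option ℕ))) : Option (List Bool) :=
  ts.foldr (stp l) (some [])

theorem foldr_toks (l : List ℕ) (φ : Fml) : ∀ s : List Bool, φ.toks.foldr (stp l) (some s) =
    some (φ.eval (fun n => decide (n ∈ l)) :: s) := by
  induction φ with
  | var n => intro s; rfl
  | neg φ ih => intro s; rw [Fml.toks, List.foldr_cons, ih]; rfl
  | imp φ ψ ih1 ih2 =>
    intro s
    rw [Fml.toks, List.foldr_cons, List.foldr_append, ih2, ih1]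
    rfl

theorem evs_toks (l : List ℕ) (φ : Fml) :
    evs l φ.toks = some [φ.eval (fun n => decide (n ∈ l))] := foldr_toks l φ []

theorem exists_of_evs {l : List ℕ} : ∀ (ts : List (Option (Option ℕ))) (s : List Bool),
    evs l ts = some s → ∃ φs : List Fml, ts = φs.flatMap Fml.toks ∧
      s = φs.map (fun φ => φ.eval (fun n => decide (n ∈ l))) := by
  intro ts
  induction ts with
  | nil =>
    intro s h
    have : s = [] := by simpa [evs] using h.symm
    subst this
    exact ⟨[], rfl, rfl⟩
  | cons t ts ih =>
    intro s h
    have h0 : evs l (t :: ts) = stp l t (evs l ts) := rfl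
    rw [h0] at h
    cases hs : evs l ts with
    | none => rw [hs] at h; simp [stp] at h
    | some s0 =>
      obtain ⟨φs, h1, h2⟩ := ih s0 hs
      rw [hs] at h
      rcases t with _ | _ | n
      · rcases φs with _ | ⟨φ, φs⟩
        · rw [h2] at h; simp [stp] at h
        · rw [h2] at h
          simp only [stp, Option.elim_some, Option.elim_none, List.map_cons, List.head?_cons,
            List.tail_cons, Option.some.injEq] at h
          refine ⟨Fml.neg φ :: φs, ?_, ?_⟩
          · rw [h1]; simp [Fml.toks]
          · rw [← h]; simp [Fml.eval]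
      · rcases φs with _ | ⟨φ, _ | ⟨ψ, φs⟩⟩
        · rw [h2] at h; simp [stp] at h
        · rw [h2] at h; simp [stp] at h
        · rw [h2] at h
          simp only [stp, Option.elim_some, Option.elim_none, List.map_cons, List.head?_cons,
            List.tail_cons, Option.some.injEq] at h
          refine ⟨Fml.imp φ ψ :: φs, ?_, ?_⟩
          · rw [h1]; simp [Fml.toks]
          · rw [← h]; simp [Fml.eval]
      · simp only [stp, Option.elim_some, Option.some.injEq] at h
        refine ⟨Fml.var n :: φs, ?_, ?_⟩
        · rw [h1]; simp [Fml.toks]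
        · rw [← h, h2]; simp [Fml.eval]

/-- a formula can be read off its symbols -/
def prs (t : Option (Option ℕ)) (s : List Fml) : List Fml :=
  t.elim (match s with | φ :: s => Fml.neg φ :: s | [] => [])
    (fun u => u.elim (match s with | φ :: ψ :: s => Fml.imp φ ψ :: s | s => s)
      (fun n => Fml.var n :: s))

theorem foldr_prs (φ : Fml) : ∀ s : List Fml, φ.toks.foldr prs s = φ :: s := by
  induction φ with
  | var n => intro s; rfl
  | neg φ ih => intro s; rw [Fml.toks, List.foldr_cons, ih]; rfl
  | imp φ ψ ih1 ih2 =>
    intro s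
    rw [Fml.toks, List.foldr_cons, List.foldr_append, ih2, ih1]
    rfl

/-- different formulas have different codes -/
theorem Fml.code_injective : Function.Injective Fml.code := by
  intro φ ψ h
  have h1 : φ.toks = ψ.toks := bits_injective h
  have h2 := foldr_prs φ []
  rw [h1, foldr_prs ψ []] at h2
  exact (List.cons.inj h2).1.symm

theorem code_mem_TAUT {φ : Fml} : φ.code ∈ TAUT ↔ ∀ v, φ.eval v = true := by
  constructor
  · rintro ⟨ψ, h, h'⟩
    rw [Fml.code_injective h]
    exact h'
  · intro h
    exact ⟨φ, rfl, h⟩

/-- the numbers of the variables -/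
def numOf (ts : List (Option (Option ℕ))) : List ℕ :=
  ts.flatMap (fun t => t.elim [] (fun u => u.elim [] (fun n => [n])))

theorem sz_numOf_le (ts : List (Option (Option ℕ))) : sz (numOf ts) ≤ sz ts := by
  induction ts with
  | nil => exact le_rfl
  | cons t ts ih =>
    have h : numOf (t :: ts) = t.elim [] (fun u => u.elim [] (fun n => [n])) ++ numOf ts := rfl
    rw [h]
    rcases t with _ | _ | n
    · simp only [Option.elim_none, List.nil_append, sz_list_cons]; omega
    · simp only [Option.elim_none, Option.elim_some, List.nil_append, sz_list_cons]; omega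
    · simp only [Option.elim_some, List.cons_append, List.nil_append, sz_list_cons, sz_some]
      omega

theorem numOf_append (ts ts' : List (Option (Option ℕ))) :
    numOf (ts ++ ts') = numOf ts ++ numOf ts' := by
  simp [numOf]

theorem eval_congr {v v' : ℕ → Bool} (φ : Fml) (h : ∀ n ∈ numOf φ.toks, v n = v' n) :
    φ.eval v = φ.eval v' := by
  induction φ with
  | var n => exact h n (by simp [numOf, Fml.toks])
  | neg φ ih =>
    rw [Fml.eval, Fml.eval, ih fun n hn => h n ?_]
    exact hn
  | imp φ ψ ih1 ih2 =>
    have e : numOf (Fml.imp φ ψ).toks = numOf φ.toks ++ numOf ψ.toks := numOf_append _ _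
    rw [Fml.eval, Fml.eval, ih1 fun n hn => h n (by rw [e]; exact List.mem_append_left _ hn),
      ih2 fun n hn => h n (by rw [e]; exact List.mem_append_right _ hn)]

theorem p_stp {α : Type} [TEnc α] {l : α → List ℕ} {t : α → Option (Option ℕ)}
    {s : α → Option (List Bool)} (hl : Poly l) (ht : Poly t) (hs : Poly s) :
    Poly (fun a => stp (l a) (t a) (s a)) := by
  refine p_elim hs (NPC.Poly.const none) (p_elim (o := fun p : α × List Bool => t p.1)
    (ht.comp (Poly.fst Poly.id)) ?_ ?_)
  · refine p_elim (o := fun p : α × List Bool => p.2.head?)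
      (h := fun p b => some ((!b) :: p.2.tail)) (Poly.head? (Poly.snd Poly.id))
      (NPC.Poly.const none) (Poly.some (Poly.cons (Poly.not (Poly.snd Poly.id))
        (Poly.tail (Poly.snd (Poly.fst Poly.id)))))
  · refine p_elim (o := fun p : (α × List Bool) × Option ℕ => p.2)
      (h := fun p n => some (decide (n ∈ l p.1.1) :: p.1.2)) (Poly.snd Poly.id) ?_ ?_
    · refine p_elim (o := fun p : (α × List Bool) × Option ℕ => p.1.2.head?)
        (h := fun p b => p.1.2.tail.head?.elim none (fun c => some ((!b || c) :: p.1.2.tail.tail)))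
        (Poly.head? (Poly.snd (Poly.fst Poly.id))) (NPC.Poly.const none) ?_
      refine p_elim (o := fun p : ((α × List Bool) × Option ℕ) × Bool => p.1.1.2.tail.head?)
        (h := fun p c => some ((!p.2 || c) :: p.1.1.2.tail.tail))
        (Poly.head? (Poly.tail (Poly.snd (Poly.fst (Poly.fst Poly.id)))))
        (NPC.Poly.const none) ?_
      exact Poly.some (Poly.cons (Poly.or (Poly.not (Poly.snd (Poly.fst Poly.id)))
        (Poly.snd Poly.id)) (Poly.tail (Poly.tail (Poly.snd (Poly.fst (Poly.fst
          (Poly.fst Poly.id)))))))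
    · have h1 : Poly (fun p : ((α × List Bool) × Option ℕ) × ℕ => p.1.1.1) :=
        Poly.fst (Poly.fst (Poly.fst Poly.id))
      exact Poly.some (Poly.cons (Poly.decide_mem (Poly.snd Poly.id) (hl.comp h1))
        (Poly.snd (Poly.fst (Poly.fst Poly.id))))

theorem length_evs {l : List ℕ} : ∀ (ts : List (Option (Option ℕ))) (s : List Bool),
    evs l ts = some s → s.length ≤ ts.length := by
  intro ts
  induction ts with
  | nil =>
    intro s h
    have : s = [] := by simpa [evs] using h.symm
    simp [this]
  | cons t ts ih =>
    intro s h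
    have h0 : evs l (t :: ts) = stp l t (evs l ts) := rfl
    rw [h0] at h
    cases hs : evs l ts with
    | none => rw [hs] at h; simp [stp] at h
    | some s0 =>
      have h1 := ih s0 hs
      rw [hs] at h
      rw [List.length_cons]
      rcases t with _ | _ | n
      · rcases s0 with _ | ⟨b, s0⟩
        · simp [stp] at h
        · simp only [stp, Option.elim_some, Option.elim_none, List.head?_cons,
            List.tail_cons, Option.some.injEq] at h
          rw [← h]
          simp only [List.length_cons] at h1 ⊢
          omega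
      · rcases s0 with _ | ⟨b, _ | ⟨c, s0⟩⟩
        · simp [stp] at h
        · simp [stp] at h
        · simp only [stp, Option.elim_some, Option.elim_none, List.head?_cons,
            List.tail_cons, Option.some.injEq] at h
          rw [← h]
          simp only [List.length_cons] at h1 ⊢
          omega
      · simp only [stp, Option.elim_some, Option.some.injEq] at h
        rw [← h]
        simp only [List.length_cons]
        omega

theorem p_evs {α : Type} [TEnc α] {l : α → List ℕ} {ts : α → List (Option (Option ℕ))}
    (hl : Poly l) (ht : Poly ts) : Poly (fun a => evs (l a) (ts a)) := by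
  obtain ⟨r, hr⟩ := ht.sz_le
  refine Poly.foldr (F := fun a t s => stp (l a) t s) ht (NPC.Poly.const (some []))
    (p_stp (hl.comp (Poly.fst Poly.id)) (Poly.fst (Poly.snd Poly.id))
      (Poly.snd (Poly.snd Poly.id))) (Polynomial.C 4 * r + Polynomial.C 4) ?_
  intro a k _
  change sz (evs (l a) ((ts a).drop k)) ≤ _
  simp only [Polynomial.eval_add, Polynomial.eval_mul, Polynomial.eval_C]
  cases h : evs (l a) ((ts a).drop k) with
  | none => simp
  | some s =>
    have h1 := length_evs _ _ h
    have h2 := sz_listBool_le s
    have h3 := length_lt_sz (ts a)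
    have h4 := hr a
    rw [List.length_drop] at h1
    rw [sz_some]
    omega

/-- the trivial oracle -/
abbrev noO : Oracle := fun _ => false

/-- the test for the complement of `TAUT` -/
def tst (x w : List Bool) : Bool :=
  (unbits (List (Option (Option ℕ))) x).elim true
    (fun ts => !(decide (evs ((unbits (List ℕ) w).elim [] (fun l => l)) ts = some [true])))

theorem p_tst {α : Type} [TEnc α] {x w : α → List Bool} (hx : Poly x) (hw : Poly w) :
    Poly (fun a => tst (x a) (w a)) := by
  refine p_elim (poly_unbits.comp hx) (NPC.Poly.const true) (Poly.not (Poly.decide_eq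
    (p_evs ?_ (Poly.snd Poly.id)) (NPC.Poly.const _)))
  exact p_elim (o := fun p : α × List (Option (Option ℕ)) => unbits (List ℕ) (w p.1))
    (h := fun _ l => l) (poly_unbits.comp (hw.comp (Poly.fst Poly.id))) (NPC.Poly.const [])
    (Poly.snd Poly.id)

theorem isCoNP_TAUT (A : Oracle) : IsCoNP A TAUT := by
  refine isNP_of_tt A _ (Q := fun _ => []) (T := fun t => tst t.1.1 t.1.2)
    (NPC.Poly.const []) (p_tst (Poly.fst (Poly.fst Poly.id)) (Poly.snd (Poly.fst Poly.id)))
    Polynomial.X fun x => ?_
  rw [Set.mem_compl_iff, Polynomial.eval_X]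
  constructor
  · intro hx
    cases hu : unbits (List (Option (Option ℕ))) x with
    | none => exact ⟨[], Nat.zero_le _, by simp [tst, hu]⟩
    | some ts =>
      have hb := bits_of_unbits hu
      by_cases h1 : ∃ φ : Fml, ts = φ.toks
      · obtain ⟨φ, rfl⟩ := h1
        have hn : ¬ ∀ v, φ.eval v = true := fun h => hx ⟨φ, hb.symm, h⟩
        rw [not_forall] at hn
        obtain ⟨v, hv⟩ := hn
        have hle : sz ((numOf φ.toks).filter v) ≤ sz (numOf φ.toks) :=
          sz_le_of_sublist List.filter_sublist
        refine ⟨bits ((numOf φ.toks).filter v), ?_, ?_⟩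
        · rw [bits_length, ← hb, bits_length]
          exact hle.trans (sz_numOf_le _)
        · simp only [tst, hu, Option.elim_some, unbits_bits]
          rw [evs_toks]
          have e : φ.eval (fun n => decide (n ∈ (numOf φ.toks).filter v)) = φ.eval v := by
            apply eval_congr
            intro n hn
            by_cases hvn : v n = true
            · rw [hvn, decide_eq_true_eq]
              exact List.mem_filter.2 ⟨hn, hvn⟩
            · have hvn' : v n = false := by simpa using hvn
              rw [hvn', decide_eq_false_iff_not, List.mem_filter]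
              exact fun h => hvn h.2
          rw [e]
          simpa using hv
      · refine ⟨[], Nat.zero_le _, ?_⟩
        simp only [tst, hu, Option.elim_some, Bool.not_eq_true', decide_eq_false_iff_not]
        intro h
        obtain ⟨φs, h2, h3⟩ := exists_of_evs _ _ h
        rcases φs with _ | ⟨φ, _ | ⟨ψ, φs⟩⟩
        · simp at h3
        · exact h1 ⟨φ, by simpa using h2⟩
        · simp at h3
  · rintro ⟨w, -, hw⟩ ⟨φ, rfl, hφ⟩
    simp only [tst, Fml.code, unbits_bits, Option.elim_some, Bool.not_eq_true',
      decide_eq_false_iff_not] at hw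
    rw [evs_toks, hφ] at hw
    exact hw rfl

/-! ### Hardness -/

/-- a false formula -/
def bot : Fml := Fml.neg (Fml.imp (Fml.var 0) (Fml.var 0))

/-- the negation of a literal -/
def litNeg (l : Bool × ℕ) : Fml :=
  if l.1 = true then Fml.neg (Fml.var l.2) else Fml.neg (Fml.neg (Fml.var l.2))

/-- a clause -/
def clause (c : List (Bool × ℕ)) : Fml := c.foldr (fun l φ => Fml.imp (litNeg l) φ) bot

/-- the negation of a conjunction of clauses -/
def cnfNeg (φ : List (List (Bool × ℕ))) : Fml := φ.foldr (fun c ψ => Fml.imp (clause c) ψ) bot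

theorem eval_clause (v : ℕ → Bool) (c : List (Bool × ℕ)) :
    (clause c).eval v = true ↔ ∃ l ∈ c, v l.2 = l.1 := by
  induction c with
  | nil => simp [clause, bot, Fml.eval]
  | cons l c ih =>
    have h : clause (l :: c) = Fml.imp (litNeg l) (clause c) := rfl
    rw [h, Fml.eval, Bool.or_eq_true, ih]
    have h2 : (!(litNeg l).eval v) = true ↔ v l.2 = l.1 := by
      obtain ⟨b, n⟩ := l
      cases b <;> simp [litNeg, Fml.eval]
    rw [h2]
    simp

theorem eval_cnfNeg (v : ℕ → Bool) (φ : List (List (Bool × ℕ))) :
    (cnfNeg φ).eval v = true ↔ ¬ ∀ c ∈ φ, ∃ l ∈ c, v l.2 = l.1 := by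
  induction φ with
  | nil => simp [cnfNeg, bot, Fml.eval]
  | cons c φ ih =>
    have h : cnfNeg (c :: φ) = Fml.imp (clause c) (cnfNeg φ) := rfl
    rw [h, Fml.eval, Bool.or_eq_true, ih, Bool.not_eq_true', ← Bool.not_eq_true, eval_clause]
    simp only [List.mem_cons, forall_eq_or_imp]
    exact not_and_or.symm

theorem toks_clause (c : List (Bool × ℕ)) :
    (clause c).toks = c.flatMap (fun l => some none :: (litNeg l).toks) ++ bot.toks := by
  induction c with
  | nil => rfl
  | cons l c ih =>
    have h : clause (l :: c) = Fml.imp (litNeg l) (clause c) := rfl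
    rw [h, Fml.toks, ih]
    simp

theorem toks_cnfNeg (φ : List (List (Bool × ℕ))) :
    (cnfNeg φ).toks = φ.flatMap (fun c => some none :: (clause c).toks) ++ bot.toks := by
  induction φ with
  | nil => rfl
  | cons c φ ih =>
    have h : cnfNeg (c :: φ) = Fml.imp (clause c) (cnfNeg φ) := rfl
    rw [h, Fml.toks, ih]
    simp

theorem p_toks_litNeg {α : Type} [TEnc α] {l : α → Bool × ℕ} (hl : Poly l) :
    Poly (fun a => (litNeg (l a)).toks) := by
  have h1 : Poly (fun a => ((if (l a).1 = true then [none, some (some (l a).2)] else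
      [none, none, some (some (l a).2)]) : List (Option (Option ℕ)))) := by
    have h2 : Poly (fun a => [(some (some (l a).2) : Option (Option ℕ))]) :=
      Poly.cons (Poly.some (Poly.some (Poly.snd hl))) (NPC.Poly.const [])
    exact Poly.ite (Poly.decide_bool (Poly.fst hl)) (Poly.cons (NPC.Poly.const none) h2)
      (Poly.cons (NPC.Poly.const none) (Poly.cons (NPC.Poly.const none) h2))
  refine h1.congr fun a => ?_
  unfold litNeg
  split_ifs <;> rfl

theorem p_toks_cnfNeg : Poly (fun φ : List (List (Bool × ℕ)) => (cnfNeg φ).toks) := by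
  have hc : Poly (fun c : List (Bool × ℕ) => (clause c).toks) := by
    refine (Poly.append (Poly.flatMap (F := fun (_ : List (Bool × ℕ)) (l : Bool × ℕ) =>
      some none :: (litNeg l).toks) Poly.id (Poly.cons (NPC.Poly.const (some none))
        (p_toks_litNeg (Poly.snd Poly.id)))) (NPC.Poly.const bot.toks)).congr fun c => ?_
    exact (toks_clause c).symm
  refine (Poly.append (Poly.flatMap (F := fun (_ : List (List (Bool × ℕ))) (c : List (Bool × ℕ)) =>
      some none :: (clause c).toks) Poly.id (Poly.cons (NPC.Poly.const (some none))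
        (hc.comp (Poly.snd Poly.id)))) (NPC.Poly.const bot.toks)).congr fun c => ?_
  exact (toks_cnfNeg c).symm

theorem mem_TAUT_cnfNeg (φ : List (List (Bool × ℕ))) : (cnfNeg φ).code ∈ TAUT ↔ ¬ SAT φ := by
  rw [code_mem_TAUT]
  simp only [eval_cnfNeg]
  unfold SAT SatV
  rw [not_exists]

theorem isFP_noO {F : List Bool → List Bool} : IsFP noO F ↔ PolyTime F := by
  constructor
  · rintro ⟨M, hM⟩
    have h1 : Poly (fun x => M.out (ofL []) x) := p_out M (NPC.Poly.const []) Poly.id
    have h2 : (ofL [] : Oracle) = noO := by
      funext x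
      simp [ofL]
    rw [h2] at h1
    have h3 : Poly (fun x => (M.out noO x).elim [] (fun z => z)) :=
      p_elim h1 (NPC.Poly.const []) (Poly.snd Poly.id)
    refine H622R2.polyTime_of_poly_list (h3.congr fun x => ?_)
    rw [hM x]
    rfl
  · intro h
    exact IsFP.of_poly (H622R2.poly_of_polyTime h)

/-- `TAUT` is hard for `coNP` -/
theorem red_TAUT {L : Set (List Bool)} (hL : IsCoNP noO L) : Red noO L TAUT := by
  obtain ⟨V, p, hV, h⟩ := hL
  have hNP : InNP Lᶜ := ⟨V, p, isFP_noO.1 hV, h⟩
  obtain ⟨f, hf, hfL⟩ := hardI_SAT Lᶜ hNP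
  refine ⟨fun x => (cnfNeg (f x)).code, ?_, fun x => ?_⟩
  · rw [isFP_noO]
    have h1 : PC (fun x : List Bool => x) (bits : List (Option (Option ℕ)) → List Bool)
        (fun x => (cnfNeg (f x)).toks) :=
      PC.comp (eb := (bits : List (List (Bool × ℕ)) → List Bool))
        (g := fun φ : List (List (Bool × ℕ)) => (cnfNeg φ).toks) (f := f) p_toks_cnfNeg hf
    exact PC.toPolyTime h1
  · have h1 := hfL x
    rw [Set.mem_compl_iff] at h1
    rw [mem_TAUT_cnfNeg, ← h1, not_not]

/-! ### Cook-Reckhow proof systems -/

/-- Cook-Reckhow proof systems: polynomial-time computable functions whose range is the set of the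
codes of the tautologies. -/
def CookReckhow (f : List Bool → List Bool) : Prop := PolyTime f ∧ Set.range f = TAUT

/-- `f` simulates `g`. -/
def Simulates (f g : List Bool → List Bool) : Prop :=
  ∃ (h : List Bool → List Bool) (p : Polynomial ℕ), ∀ w, f (h w) = g w ∧
    (h w).length ≤ p.eval w.length

/-- `f` `p`-simulates `g`. -/
def PSimulates (f g : List Bool → List Bool) : Prop :=
  ∃ h : List Bool → List Bool, PolyTime h ∧ ∀ w, f (h w) = g w

/-- `f` is an optimal Cook-Reckhow proof system. -/
def OptimalCR (f : List Bool → List Bool) : Prop :=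
  CookReckhow f ∧ ∀ g, CookReckhow g → Simulates f g

/-- `f` is a `p`-optimal Cook-Reckhow proof system. -/
def POptimalCR (f : List Bool → List Bool) : Prop :=
  CookReckhow f ∧ ∀ g, CookReckhow g → PSimulates f g

theorem cookReckhow_iff (f : List Bool → List Bool) :
    CookReckhow f ↔ IsProofSystem noO TAUT f := by
  unfold CookReckhow IsProofSystem
  rw [isFP_noO]

theorem optimalCR_iff (f : List Bool → List Bool) : OptimalCR f ↔ IsOptimal noO TAUT f := by
  unfold OptimalCR IsOptimal Simulates
  simp only [cookReckhow_iff]
  refine and_congr_right fun _ => forall₂_congr fun g _ => ?_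
  constructor
  · rintro ⟨h, p, hp⟩
    exact ⟨p, fun w => ⟨h w, hp w⟩⟩
  · rintro ⟨p, hp⟩
    choose h hh using hp
    exact ⟨h, p, hh⟩

theorem pOptimalCR_iff (f : List Bool → List Bool) : POptimalCR f ↔ IsPOptimal noO TAUT f := by
  unfold POptimalCR IsPOptimal PSimulates
  simp only [cookReckhow_iff, isFP_noO]

/-- the code of a tautology -/
theorem TAUT_nonempty : TAUT.Nonempty := by
  refine ⟨(Fml.imp (Fml.var 0) (Fml.var 0)).code, code_mem_TAUT.2 fun v => ?_⟩
  simp [Fml.eval]

theorem exists_optimal_iff : ((∃ f, OptimalCR f) ↔ AllOptimal noO) ∧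
    ((∃ f, POptimalCR f) ↔ AllPOptimal noO) := by
  constructor
  · constructor
    · rintro ⟨f, hf⟩ L hne hL
      rw [optimalCR_iff] at hf
      exact hf.transfer (red_TAUT hL) hne
    · intro h
      obtain ⟨f, hf⟩ := h TAUT TAUT_nonempty (isCoNP_TAUT noO)
      exact ⟨f, (optimalCR_iff f).2 hf⟩
  · constructor
    · rintro ⟨f, hf⟩ L hne hL
      rw [pOptimalCR_iff] at hf
      exact hf.transfer (red_TAUT hL) hne
    · intro h
      obtain ⟨f, hf⟩ := h TAUT TAUT_nonempty (isCoNP_TAUT noO)
      exact ⟨f, (pOptimalCR_iff f).2 hf⟩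

end Pool.Agent.J4H63.GO
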