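import Pool.Agent.J4H63.GO.One
import Pool.Agent.J4H63.ESY.Gen

/-!
# Closed properties of generic oracles are forced by finitely many facts
-/

namespace Pool.Agent.J4H63.GO

open Pool.Agent.NPC Pool.Agent.H628R3.RO Pool.Agent.J4H63.ESY Filter

/-- open sets contain finitely many facts -/
theorem exists_facts {U : Set Oracle} (hU : IsOpen U) {G : Oracle} (hG : G ∈ U) :
    ∃ σ : Facts, Sat σ G ∧ ∀ B, Sat σ B → B ∈ U := by
  classical
  obtain ⟨I, u, hu, hsub⟩ := isOpen_pi_iff.1 hU G hG
  refine ⟨I.toList.map (fun x => (x, G x)), ?_, fun B hB => hsub fun i hi => ?_⟩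
  · intro f hf
    obtain ⟨x, -, rfl⟩ := List.mem_map.1 hf
    rfl
  · have h := hB (i, G i) (List.mem_map.2 ⟨i, Finset.mem_toList.2 hi, rfl⟩)
    simp only at h
    rw [h]
    exact (hu i hi).2

/-- a closed property of a generic oracle is forced -/
theorem forced {S : Set Oracle} (hS : IsClosed S) : ∀ᶠ G in residual Oracle, G ∈ S →
    ∃ σ : Facts, Sat σ G ∧ ∀ B, Sat σ B → B ∈ S := by
  have h1 : ∀ᶠ G in residual Oracle, G ∈ Sᶜ ∪ interior S := by
    refine residual_of_dense_open (hS.isOpen_compl.union isOpen_interior) ?_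
    change Dense (Sᶜ ∪ interior S)
    rw [dense_iff_closure_eq, closure_union, closure_compl, Set.eq_univ_iff_forall]
    intro G
    by_cases h : G ∈ interior S
    · exact Or.inr (subset_closure h)
    · exact Or.inl h
  filter_upwards [h1] with G hG hGS
  have h2 : G ∈ interior S := hG.resolve_left (fun h => h hGS)
  obtain ⟨σ, h3, h4⟩ := exists_facts isOpen_interior h2
  exact ⟨σ, h3, fun B hB => interior_subset (h4 B hB)⟩

/-- the strings on which `join B E` can be needed for inputs of length at most `n` -/
theorem out_join_congr (M : Alg) (E : Oracle) : ∃ qb : Polynomial ℕ, ∀ (B B' : Oracle)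
    (u : List Bool) (N : ℕ), u.length ≤ N → (∀ x : List Bool, x.length ≤ qb.eval N → B x = B' x) →
      M.out (join B E) u = M.out (join B' E) u := by
  obtain ⟨qb, h⟩ := M.out_congr
  refine ⟨qb, fun B B' u N hu hB => h _ _ u N hu fun x hx => ?_⟩
  rcases x with _ | ⟨b, x⟩
  · rfl
  · cases b with
    | true => rfl
    | false =>
      rw [List.length_cons] at hx
      exact hB x (by omega)

/-- the set given by a verifier relative to the join with `B` -/
def CoL (V : Alg) (p : Polynomial ℕ) (X : Oracle) : Set (List Bool) :=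
  {x | ∀ w : List Bool, w.length ≤ p.eval x.length → V.out X (pairBits x w) ≠ some [true]}

theorem exists_coL {X : Oracle} {L : Set (List Bool)} (hL : IsCoNP X L) :
    ∃ (V : Alg) (p : Polynomial ℕ), L = CoL V p X := by
  obtain ⟨W, p, ⟨V, hV⟩, h⟩ := hL
  refine ⟨V, p, ?_⟩
  ext x
  have h1 := h x
  rw [Set.mem_compl_iff] at h1
  rw [← not_iff_not, h1]
  unfold CoL
  simp only [Set.mem_ofPred_eq, not_forall, not_not, hV, Option.some.injEq, exists_prop]

theorem coL_congr (V : Alg) (p : Polynomial ℕ) (E : Oracle) : ∃ qb : Polynomial ℕ,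
    ∀ (B B' : Oracle) (x : List Bool), (∀ s : List Bool, s.length ≤ qb.eval x.length → B s = B' s) →
      x ∈ CoL V p (join B E) → x ∈ CoL V p (join B' E) := by
  obtain ⟨qb, h⟩ := out_join_congr V E
  refine ⟨qb.comp (2 * Polynomial.X + 1 + p), fun B B' x hB hx w hw => ?_⟩
  rw [← h B B' _ _ (?_ : (pairBits x w).length ≤ (2 * Polynomial.X + 1 + p).eval x.length) ?_]
  · exact hx w hw
  · rw [length_pairBits]
    simp only [Polynomial.eval_add, Polynomial.eval_mul, Polynomial.eval_ofNat,
      Polynomial.eval_one, Polynomial.eval_X]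
    omega
  · intro s hs
    rw [← Polynomial.eval_comp] at hs
    exact hB s hs

/-- conditions on every input which depend on finitely many strings are closed -/
theorem isClosed_forall {R : List Bool → Oracle → Prop}
    (h : ∀ w, ∃ n : ℕ, Loc {s | s.length ≤ n} {B | R w B}) : IsClosed {B | ∀ w, R w B} := by
  have e : {B | ∀ w, R w B} = ⋂ w, {B | R w B} := by
    ext B
    simp
  rw [e]
  refine isClosed_iInter fun w => ?_
  obtain ⟨n, hn⟩ := h w
  exact isClosed_of_loc (finite_length_le n) hn

/-- soundness of an algorithm for a fixed set is a closed condition -/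
theorem isClosed_sound (N : Alg) (E : Oracle) (L : Set (List Bool)) :
    IsClosed {B | ∀ w z, N.out (join B E) w = some z → z ∈ L} := by
  obtain ⟨qb, h⟩ := out_join_congr N E
  refine isClosed_forall (R := fun w B => ∀ z, N.out (join B E) w = some z → z ∈ L) fun w =>
    ⟨qb.eval w.length, loc_of_imp fun B B' hB hR z hz => ?_⟩
  refine hR z ?_
  rw [h B B' w w.length le_rfl hB]
  exact hz

/-- soundness of an algorithm for a set in `coNP` is a closed condition -/
theorem isClosed_soundV (N V : Alg) (p : Polynomial ℕ) (E : Oracle) :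
    IsClosed {B | ∀ w z, N.out (join B E) w = some z → z ∈ CoL V p (join B E)} := by
  obtain ⟨qb, h⟩ := out_join_congr N E
  obtain ⟨qv, hv⟩ := coL_congr V p E
  obtain ⟨b, hb⟩ := N.out_length
  refine isClosed_forall (R := fun w B => ∀ z, N.out (join B E) w = some z →
    z ∈ CoL V p (join B E)) fun w =>
    ⟨qb.eval w.length + qv.eval (b.eval w.length), loc_of_imp fun B B' hB hR z hz => ?_⟩
  have h1 : N.out (join B E) w = some z := by
    rw [h B B' w w.length le_rfl fun x hx => hB x (by
      change x.length ≤ qb.eval w.length + qv.eval (b.eval w.length); omega)]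
    exact hz
  refine hv B B' z (fun s hs => hB s ?_) (hR z h1)
  have h2 := NPC.eval_mono qv (hb _ _ _ h1)
  change s.length ≤ qb.eval w.length + qv.eval (b.eval w.length)
  omega

/-- the simulation of the system computed by `K` by the system computed by `F`, with the
translation computed by `H`, is a closed condition -/
theorem isClosed_sim (H F K : Alg) (E : Oracle) :
    IsClosed {B | ∀ w, ∃ v z, H.out (join B E) w = some v ∧ F.out (join B E) v = some z ∧
      K.out E w = some z} := by
  obtain ⟨qh, h⟩ := out_join_congr H E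
  obtain ⟨qf, hf⟩ := out_join_congr F E
  obtain ⟨b, hb⟩ := H.out_length
  refine isClosed_forall (R := fun w B => ∃ v z, H.out (join B E) w = some v ∧
    F.out (join B E) v = some z ∧ K.out E w = some z) fun w =>
    ⟨qh.eval w.length + qf.eval (b.eval w.length), loc_of_imp fun B B' hB hR => ?_⟩
  obtain ⟨v, z, h1, h2, h3⟩ := hR
  refine ⟨v, z, ?_, ?_, h3⟩
  · rw [← h B B' w w.length le_rfl fun x hx => hB x (by
      change x.length ≤ qh.eval w.length + qf.eval (b.eval w.length); omega)]
    exact h1
  · rw [← hf B B' v _ (hb _ _ _ h1) fun x hx => hB x (by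
      change x.length ≤ qh.eval w.length + qf.eval (b.eval w.length); omega)]
    exact h2

end Pool.Agent.J4H63.GO
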