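import Pool.Agent.J4H63.GO.Taut

/-!
# Optimal proof systems relative to generic oracles: the final statements
-/

namespace Pool.Agent.J4H63.GO

open Pool.Agent.NPC Pool.Agent.H628R3.RO Pool.Agent.J4H63.ESY Filter

/-- a complete set for `coNP` decides about all sets in `coNP` -/
theorem allOptimal_iff_complete {X : Oracle} {L : Set (List Bool)} (hL : IsCoNP X L)
    (hh : CoNPHardRel X L) (hne : L.Nonempty) :
    (AllOptimal X ↔ ∃ P, IsOptimal X L P) ∧ (AllPOptimal X ↔ ∃ P, IsPOptimal X L P) :=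
  ⟨⟨fun h => h L hne hL, fun ⟨_, h⟩ L' hne' hL' => h.transfer (hh L' hL') hne'⟩,
    ⟨fun h => h L hne hL, fun ⟨_, h⟩ L' hne' hL' => h.transfer (hh L' hL') hne'⟩⟩

/-- a proof system with short proofs for a set in `NP` -/
theorem exists_bounded {X : Oracle} {L : Set (List Bool)} (hne : L.Nonempty) (hL : IsNP X L) :
    ∃ P, IsOptimal X L P := by
  obtain ⟨x₀, hx₀⟩ := hne
  obtain ⟨V, p, hV, h⟩ := hL
  have hlen : Poly (fun y : List Bool =>
      decide ((unpair y).2.length ≤ p.eval (unpair y).1.length)) :=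
    Poly.decide_le (Poly.length (Poly.snd poly_unpair))
      (UPoly.toPoly (UPoly.eval (UPoly.length (Poly.fst poly_unpair)) p))
  set F : List Bool → List Bool := fun y => if (V y = [true] ∧
    (unpair y).2.length ≤ p.eval (unpair y).1.length) ∧ pairBits (unpair y).1 (unpair y).2 = y then
      (unpair y).1 else x₀ with hF
  have hFP : IsFP X F := by
    refine IsFP.seq (F := V) (G := fun z => z) (φ := fun p => p.1)
      (ψ := fun t => if (t.2.1 = [true] ∧
        (unpair t.1).2.length ≤ p.eval (unpair t.1).1.length) ∧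
          pairBits (unpair t.1).1 (unpair t.1).2 = t.1 then (unpair t.1).1 else x₀) hV
      (IsFP.of_poly Poly.id) (Poly.fst Poly.id) ?_
    refine Poly.ite (Poly.decide_and (Poly.decide_and ?_ ?_) ?_) ?_ (NPC.Poly.const _)
    · exact Poly.decide_eq (Poly.fst (Poly.snd Poly.id)) (NPC.Poly.const _)
    · exact hlen.comp (Poly.fst Poly.id)
    · exact Poly.decide_eq (H622R2.poly_pairBits (Poly.fst (poly_unpair.comp (Poly.fst Poly.id)))
        (Poly.snd (poly_unpair.comp (Poly.fst Poly.id)))) (Poly.fst Poly.id)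
    · exact Poly.fst (poly_unpair.comp (Poly.fst Poly.id))
  have hmem : ∀ y, F y ∈ L := by
    intro y
    simp only [hF]
    split_ifs with h1
    · obtain ⟨⟨h2, h3⟩, h4⟩ := h1
      rw [h]
      exact ⟨_, h3, by rw [h4]; exact h2⟩
    · exact hx₀
  have hcomp : ∀ x w, w.length ≤ p.eval x.length → V (pairBits x w) = [true] →
      F (pairBits x w) = x := by
    intro x w h1 h2
    simp only [hF, unpair_pairBits]
    rw [if_pos ⟨⟨h2, h1⟩, trivial⟩]
  refine ⟨F, ⟨hFP, ?_⟩, fun Q hQ => ?_⟩
  · ext x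
    constructor
    · rintro ⟨y, rfl⟩
      exact hmem y
    · intro hx
      obtain ⟨w, h1, h2⟩ := (h x).1 hx
      exact ⟨_, hcomp x w h1 h2⟩
  · obtain ⟨b, hb⟩ := IsFP.length_le hQ.1
    refine ⟨2 * b + 1 + p.comp b, fun w => ?_⟩
    have hx : Q w ∈ L := hQ.2 ▸ ⟨w, rfl⟩
    obtain ⟨u, h1, h2⟩ := (h _).1 hx
    refine ⟨_, hcomp _ _ h1 h2, ?_⟩
    rw [length_pairBits]
    have h3 := hb w
    have h4 := NPC.eval_mono p h3
    simp only [Polynomial.eval_add, Polynomial.eval_mul, Polynomial.eval_ofNat,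
      Polynomial.eval_one, Polynomial.eval_comp]
    omega

theorem allOptimal_of_np_eq {X : Oracle} (h : ∀ L, IsCoNP X L → IsNP X L) : AllOptimal X :=
  fun L hne hL => exists_bounded hne (h L hL)

/-- `NP` and `coNP` differ relative to a generic oracle, over every base -/
theorem np_ne (E : Oracle) : ∀ᶠ G in residual Oracle, ∃ L : Set (List Bool),
    IsNP (join G E) L ∧ ¬ IsCoNP (join G E) L := by
  filter_upwards [main_gen (ext_join E)] with G hG
  obtain ⟨L, h1, h2⟩ := hG
  refine ⟨L, h1, fun h => ?_⟩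
  have hempty : IsPair (IsNP (join G E)) ∅ ∅ := by
    refine ⟨?_, ?_, fun x h => h.1⟩ <;>
    exact ⟨fun _ => [], 0, IsFP.of_poly (NPC.Poly.const _), fun x => by simp⟩
  obtain ⟨T, -, hT⟩ := h2 ∅ ∅ hempty
  exact hT ((oneRed_right T (join G E)).isCoNP h)

/-- a statement that does not depend on the oracle -/
theorem eventually_iff_const {p : Oracle → Prop} {c : Prop}
    (h : ∀ᶠ G in residual Oracle, (p G ↔ c)) :
    (c ↔ ∀ᶠ G in residual Oracle, p G) ∧ (¬ c ↔ ∀ᶠ G in residual Oracle, ¬ p G) := by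
  have hne : (residual Oracle).NeBot := by
    refine ⟨fun hb => ?_⟩
    have h1 : (∅ : Set Oracle) ∈ residual Oracle := by rw [hb]; exact mem_bot
    exact Set.not_nonempty_empty (dense_of_mem_residual h1).nonempty
  constructor
  · constructor
    · intro hc
      filter_upwards [h] with G hG
      exact hG.2 hc
    · intro hp
      obtain ⟨G, h1, h2⟩ := (h.and hp).exists
      exact h1.1 h2
  · constructor
    · intro hc
      filter_upwards [h] with G hG
      exact fun h' => hc (hG.1 h')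
    · intro hp hc
      obtain ⟨G, h1, h2⟩ := (h.and hp).exists
      exact h2 (h1.2 hc)

theorem q1 : ∀ᶠ G in residual Oracle, (AllOptimal G ↔ ∃ f, OptimalCR f) ∧
    (AllPOptimal G ↔ ∃ f, POptimalCR f) := by
  filter_upwards [invariant noO] with G hG
  obtain ⟨h1, h2⟩ := exists_optimal_iff
  obtain ⟨h3, h4⟩ := allOptimal_iff_of (oneRed_empty G) (oneRed_left G noO)
  exact ⟨by rw [h1, ← hG.1, h3], by rw [h2, ← hG.2, h4]⟩

end Pool.Agent.J4H63.GO
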