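import Pool.Agent.J4H63.GO.Force

/-!
# Proof systems for a fixed set, relative to a generic oracle
-/

namespace Pool.Agent.J4H63.GO

open Pool.Agent.NPC Pool.Agent.H628R3.RO Pool.Agent.J4H63.ESY Filter

theorem p_elim {α β γ : Type} [TEnc α] [TEnc β] [TEnc γ] {o : α → Option β} {g : α → γ}
    {h : α → β → γ} (ho : Poly o) (hg : Poly g) (hh : Poly (fun p : α × β => h p.1 p.2)) :
    Poly (fun a => (o a).elim (g a) (h a)) :=
  (Poly.optCases ho hg hh).congr fun a => by cases o a <;> rfl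

/-- the replay system: a proof is a proof in the system computed by `F`, together with its
transcript -/
def sysA (F : Alg) (E : Oracle) (σ : Facts) (x₀ y : List Bool) : List Bool :=
  (repE F E σ (unpair y).1 (unpair y).2).elim x₀ (fun zρ => zρ.1)

theorem isFP_sysA (F : Alg) (E : Oracle) (σ : Facts) (x₀ : List Bool) :
    IsFP E (sysA F E σ x₀) := by
  have hH : Poly (fun p : List Bool × Option (List Bool × Facts) =>
      p.2.elim x₀ (fun zρ => zρ.1)) :=
    p_elim (o := fun p : List Bool × Option (List Bool × Facts) => p.2)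
      (g := fun _ => x₀) (h := fun _ zρ => zρ.1) (Poly.snd Poly.id) (NPC.Poly.const _)
      (Poly.fst (Poly.snd Poly.id))
  exact isFP_repE F E (NPC.Poly.const σ) (Poly.fst poly_unpair) (Poly.snd poly_unpair) hH

theorem sysA_mem {F : Alg} {E : Oracle} {σ : Facts} {x₀ : List Bool} {L : Set (List Bool)}
    (hx₀ : x₀ ∈ L) (h : ∀ B, Sat σ B → ∀ w, ∃ z, F.out (join B E) w = some z ∧ z ∈ L)
    (y : List Bool) : sysA F E σ x₀ y ∈ L := by
  unfold sysA
  cases hr : repE F E σ (unpair y).1 (unpair y).2 with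
  | none => exact hx₀
  | some zρ =>
    obtain ⟨z, ρ⟩ := zρ
    obtain ⟨h1, B, hB⟩ := repE_sound hr
    obtain ⟨h2, h3⟩ := h1 B hB
    obtain ⟨z', h4, h5⟩ := h B h2 (unpair y).1
    rw [h3, Option.some.injEq] at h4
    change z ∈ L
    rw [h4]
    exact h5

theorem sysA_complete {F : Alg} {G E : Oracle} {σ : Facts} {x₀ v z : List Bool} (hσ : Sat σ G)
    (h : F.out (join G E) v = some z) : ∃ a : List Bool, sysA F E σ x₀ (pairBits v a) = z ∧
      a.length < F.p.eval v.length ∧ (trAlg F).out (join G E) v = some a := by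
  obtain ⟨a, ρ, -, h2, h3, h4⟩ := repE_complete hσ h
  refine ⟨a, ?_, h3, h4⟩
  unfold sysA
  rw [unpair_pairBits, h2]
  rfl

/-- the closed condition that `F` computes a total function with values in `L` -/
def Snd (F : Alg) (E : Oracle) (L : Set (List Bool)) : Set Oracle :=
  {B | ∀ w, ∃ z, F.out (join B E) w = some z ∧ z ∈ L}

theorem isClosed_snd (F : Alg) (E : Oracle) (L : Set (List Bool)) : IsClosed (Snd F E L) := by
  obtain ⟨qb, h⟩ := out_join_congr F E
  refine isClosed_forall (R := fun w B => ∃ z, F.out (join B E) w = some z ∧ z ∈ L) fun w =>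
    ⟨qb.eval w.length, loc_of_imp fun B B' hB hR => ?_⟩
  obtain ⟨z, h1, h2⟩ := hR
  refine ⟨z, ?_, h2⟩
  rw [← h B B' w w.length le_rfl hB]
  exact h1

theorem isProofSystem_sysA {F : Alg} {G E : Oracle} {σ : Facts} {x₀ : List Bool}
    {L : Set (List Bool)} {P' : List Bool → List Bool} (hP' : Set.range P' = L)
    (hF : ∀ w, F.out (join G E) w = some (P' w)) (hx₀ : x₀ ∈ L) (hσ : Sat σ G)
    (h : ∀ B, Sat σ B → B ∈ Snd F E L) : IsProofSystem E L (sysA F E σ x₀) := by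
  refine ⟨isFP_sysA F E σ x₀, ?_⟩
  ext x
  constructor
  · rintro ⟨y, rfl⟩
    exact sysA_mem hx₀ h y
  · intro hx
    rw [← hP'] at hx
    obtain ⟨w, rfl⟩ := hx
    obtain ⟨a, h1, -⟩ := sysA_complete (x₀ := x₀) hσ (hF w)
    exact ⟨_, h1⟩

theorem IsProofSystem.lift {O O' : Oracle} (h : OneRed O' O) {L : Set (List Bool)}
    {P : List Bool → List Bool} (hP : IsProofSystem O' L P) : IsProofSystem O L P :=
  ⟨h.isFP hP.1, hP.2⟩

/-- from the generic extension to the base, for a fixed set -/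
theorem down {G E : Oracle} {L : Set (List Bool)} {P' : List Bool → List Bool}
    (hopt : IsOptimal (join G E) L P') (hG : ∀ F : Alg, G ∈ Snd F E L →
      ∃ σ : Facts, Sat σ G ∧ ∀ B, Sat σ B → B ∈ Snd F E L) : ∃ P, IsOptimal E L P := by
  obtain ⟨⟨⟨F, hF⟩, hr⟩, hsim⟩ := hopt
  have hF' : ∀ w, F.out (join G E) w = some (P' w) := hF
  have hx₀ : P' [] ∈ L := hr ▸ ⟨[], rfl⟩
  obtain ⟨σ, hσ, hσ'⟩ := hG F fun w => ⟨_, hF' w, hr ▸ ⟨w, rfl⟩⟩
  refine ⟨sysA F E σ (P' []), isProofSystem_sysA hr hF' hx₀ hσ hσ', fun Q hQ => ?_⟩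
  obtain ⟨q, hq⟩ := hsim Q (IsProofSystem.lift (oneRed_right G E) hQ)
  refine ⟨2 * q + 1 + F.p.comp q, fun w => ?_⟩
  obtain ⟨v, hv, hvl⟩ := hq w
  obtain ⟨a, h1, h2, -⟩ := sysA_complete (x₀ := P' []) hσ (hF' v)
  refine ⟨pairBits v a, by rw [h1, hv], ?_⟩
  rw [length_pairBits]
  have h3 := NPC.eval_mono F.p hvl
  simp only [Polynomial.eval_add, Polynomial.eval_mul, Polynomial.eval_ofNat,
    Polynomial.eval_one, Polynomial.eval_comp]
  omega

theorem downP {G E : Oracle} {L : Set (List Bool)} {P' : List Bool → List Bool}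
    (hopt : IsPOptimal (join G E) L P') (hG : ∀ F : Alg, G ∈ Snd F E L →
      ∃ σ : Facts, Sat σ G ∧ ∀ B, Sat σ B → B ∈ Snd F E L)
    (hG' : ∀ H F K : Alg, G ∈ {B | ∀ w, ∃ v z, H.out (join B E) w = some v ∧
        F.out (join B E) v = some z ∧ K.out E w = some z} →
      ∃ σ : Facts, Sat σ G ∧ ∀ B, Sat σ B → B ∈ {B | ∀ w, ∃ v z, H.out (join B E) w = some v ∧
        F.out (join B E) v = some z ∧ K.out E w = some z}) : ∃ P, IsPOptimal E L P := by
  obtain ⟨⟨⟨F, hF⟩, hr⟩, hsim⟩ := hopt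
  have hF' : ∀ w, F.out (join G E) w = some (P' w) := hF
  have hx₀ : P' [] ∈ L := hr ▸ ⟨[], rfl⟩
  obtain ⟨σ, hσ, hσ'⟩ := hG F fun w => ⟨_, hF' w, hr ▸ ⟨w, rfl⟩⟩
  refine ⟨sysA F E σ (P' []), isProofSystem_sysA hr hF' hx₀ hσ hσ', fun Q hQ => ?_⟩
  obtain ⟨h', ⟨H, hH⟩, hh'⟩ := hsim Q (IsProofSystem.lift (oneRed_right G E) hQ)
  obtain ⟨K, hK⟩ := hQ.1
  obtain ⟨σ', hσG', hσS'⟩ := hG' H F K fun w => ⟨h' w, Q w, hH w, by rw [hF', hh'], hK w⟩
  -- a finite oracle for which all this is true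
  have hcons : Sat (σ ++ σ') (ofFacts (σ ++ σ')) := by
    apply sat_ofFacts
    intro f hf g hg hfg
    have hGG : Sat (σ ++ σ') G := sat_append.2 ⟨hσ, hσG'⟩
    rw [← hGG f hf, ← hGG g hg, hfg]
  set B₀ : Oracle := ofFacts (σ ++ σ') with hB₀
  obtain ⟨c1, c2⟩ := sat_append.1 hcons
  have k1 := hσS' B₀ c2
  simp only [Set.mem_ofPred_eq] at k1
  choose hv hz e1 e2 e3 using k1
  have k2 := hσ' B₀ c1
  simp only [Snd, Set.mem_ofPred_eq] at k2
  have k3 : ∀ v, ∃ a, (trAlg F).out (join B₀ E) v = some a := fun v => by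
    obtain ⟨z, h1, -⟩ := k2 v
    obtain ⟨a, -, -, h2⟩ := sysA_complete (x₀ := P' []) c1 h1
    exact ⟨a, h2⟩
  choose ta hta using k3
  have f1 : IsFP E hv := (oneRed_finite (σ ++ σ') E).isFP ⟨H, e1⟩
  have f2 : IsFP E ta := (oneRed_finite (σ ++ σ') E).isFP ⟨trAlg F, hta⟩
  refine ⟨fun w => pairBits (hv w) (ta (hv w)), IsFP.pair f1 (IsFP.comp f2 f1), fun w => ?_⟩
  obtain ⟨a, h1, -, h2⟩ := sysA_complete (x₀ := P' []) c1 (e2 w)
  rw [hta, Option.some.injEq] at h2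
  change sysA F E σ (P' []) (pairBits (hv w) (ta (hv w))) = Q w
  rw [h2, h1]
  have h3 := e3 w
  rw [hK, Option.some.injEq] at h3
  exact h3.symm

/-- two proof systems in one -/
def mix (P S : List Bool → List Bool) (y : List Bool) : List Bool :=
  if y.head? = some true then P y.tail else S y.tail

theorem isFP_mix {A : Oracle} {P S : List Bool → List Bool} (hP : IsFP A P) (hS : IsFP A S) :
    IsFP A (mix P S) := by
  have ht : IsFP A (fun w : List Bool => w.tail) := IsFP.of_poly (Poly.tail Poly.id)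
  refine IsFP.seq (φ := fun p => p.1.tail)
    (ψ := fun p => if p.1.head? = some true then p.2.1 else p.2.2) (IsFP.comp hP ht) hS ?_ ?_
  · exact Poly.tail (Poly.fst Poly.id)
  · refine Poly.ite (Poly.decide_eq (Poly.head? (Poly.fst Poly.id)) (NPC.Poly.const _)) ?_ ?_
    · exact Poly.fst (Poly.snd Poly.id)
    · exact Poly.snd (Poly.snd Poly.id)

theorem mix_false (P S : List Bool → List Bool) (y : List Bool) : mix P S (false :: y) = S y := by
  simp [mix]

theorem isProofSystem_mix {A : Oracle} {L : Set (List Bool)} {P S : List Bool → List Bool}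
    (hP : IsProofSystem A L P) (hS : IsFP A S) (h : ∀ y, S y ∈ L) :
    IsProofSystem A L (mix P S) := by
  refine ⟨isFP_mix hP.1 hS, ?_⟩
  ext x
  constructor
  · rintro ⟨y, rfl⟩
    unfold mix
    split_ifs
    · exact hP.2 ▸ ⟨_, rfl⟩
    · exact h _
  · intro hx
    rw [← hP.2] at hx
    obtain ⟨w, rfl⟩ := hx
    exact ⟨true :: w, by simp [mix]⟩

/-- from the base to the generic extension, for a fixed set: the same system is optimal -/
theorem up {G E : Oracle} {L : Set (List Bool)} {P : List Bool → List Bool}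
    (hopt : IsOptimal E L P) (hG : ∀ F : Alg, G ∈ Snd F E L →
      ∃ σ : Facts, Sat σ G ∧ ∀ B, Sat σ B → B ∈ Snd F E L) : IsOptimal (join G E) L P := by
  refine ⟨IsProofSystem.lift (oneRed_right G E) hopt.1, fun Q hQ => ?_⟩
  obtain ⟨⟨N, hN⟩, hr⟩ := hQ
  have hx₀ : Q [] ∈ L := hr ▸ ⟨[], rfl⟩
  obtain ⟨σ, hσ, hσ'⟩ := hG N fun w => ⟨_, hN w, hr ▸ ⟨w, rfl⟩⟩
  obtain ⟨q, hq⟩ := hopt.2 _ (isProofSystem_mix hopt.1 (isFP_sysA N E σ (Q []))
    (sysA_mem hx₀ hσ'))
  refine ⟨q.comp (2 * Polynomial.X + 2 + N.p), fun w => ?_⟩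
  obtain ⟨a, h1, h2, -⟩ := sysA_complete (x₀ := Q []) hσ (hN w)
  obtain ⟨v, h3, h4⟩ := hq (false :: pairBits w a)
  refine ⟨v, by rw [h3, mix_false, h1], h4.trans ?_⟩
  rw [Polynomial.eval_comp]
  apply NPC.eval_mono
  rw [List.length_cons, length_pairBits]
  simp only [Polynomial.eval_add, Polynomial.eval_mul, Polynomial.eval_ofNat, Polynomial.eval_X]
  omega

theorem upP {G E : Oracle} {L : Set (List Bool)} {P : List Bool → List Bool}
    (hopt : IsPOptimal E L P) (hG : ∀ F : Alg, G ∈ Snd F E L →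
      ∃ σ : Facts, Sat σ G ∧ ∀ B, Sat σ B → B ∈ Snd F E L) : IsPOptimal (join G E) L P := by
  refine ⟨IsProofSystem.lift (oneRed_right G E) hopt.1, fun Q hQ => ?_⟩
  obtain ⟨⟨N, hN⟩, hr⟩ := hQ
  have hx₀ : Q [] ∈ L := hr ▸ ⟨[], rfl⟩
  obtain ⟨σ, hσ, hσ'⟩ := hG N fun w => ⟨_, hN w, hr ▸ ⟨w, rfl⟩⟩
  obtain ⟨h, hh, hh'⟩ := hopt.2 _ (isProofSystem_mix hopt.1 (isFP_sysA N E σ (Q []))
    (sysA_mem hx₀ hσ'))
  have k3 : ∀ w, ∃ a, sysA N E σ (Q []) (pairBits w a) = Q w ∧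
      (trAlg N).out (join G E) w = some a := fun w => by
    obtain ⟨a, h1, -, h2⟩ := sysA_complete (x₀ := Q []) hσ (hN w)
    exact ⟨a, h1, h2⟩
  choose ta hta1 hta2 using k3
  have f2 : IsFP (join G E) ta := ⟨trAlg N, hta2⟩
  have f3 : IsFP (join G E) h := (oneRed_right G E).isFP hh
  have f4 : IsFP (join G E) (fun w => pairBits w (ta w)) :=
    IsFP.pair (IsFP.of_poly Poly.id) f2
  have f5 : IsFP (join G E) (fun y : List Bool => false :: y) :=
    IsFP.of_poly (Poly.cons (NPC.Poly.const _) Poly.id)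
  refine ⟨fun w => h (false :: pairBits w (ta w)), IsFP.comp f3 (IsFP.comp f5 f4), fun w => ?_⟩
  rw [hh', mix_false, hta1]

/-- invariance for a fixed set -/
theorem fixed (E : Oracle) (L : Set (List Bool)) : ∀ᶠ G in residual Oracle,
    ((∃ P, IsOptimal (join G E) L P) ↔ ∃ P, IsOptimal E L P) ∧
    ((∃ P, IsPOptimal (join G E) L P) ↔ ∃ P, IsPOptimal E L P) := by
  have h1 : ∀ᶠ G in residual Oracle, ∀ F : Alg, G ∈ Snd F E L →
      ∃ σ : Facts, Sat σ G ∧ ∀ B, Sat σ B → B ∈ Snd F E L :=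
    eventually_countable_forall.2 fun F => forced (isClosed_snd F E L)
  have h2 : ∀ᶠ G in residual Oracle, ∀ H F K : Alg, G ∈ {B | ∀ w, ∃ v z,
      H.out (join B E) w = some v ∧ F.out (join B E) v = some z ∧ K.out E w = some z} →
      ∃ σ : Facts, Sat σ G ∧ ∀ B, Sat σ B → B ∈ {B | ∀ w, ∃ v z, H.out (join B E) w = some v ∧
        F.out (join B E) v = some z ∧ K.out E w = some z} :=
    eventually_countable_forall.2 fun H => eventually_countable_forall.2 fun F =>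
      eventually_countable_forall.2 fun K => forced (isClosed_sim H F K E)
  filter_upwards [h1, h2] with G hG hG'
  exact ⟨⟨fun ⟨_, h⟩ => down h hG, fun ⟨P, h⟩ => ⟨P, up h hG⟩⟩,
    ⟨fun ⟨_, h⟩ => downP h hG hG', fun ⟨P, h⟩ => ⟨P, upP h hG⟩⟩⟩

end Pool.Agent.J4H63.GO
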