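import Pool.Agent.J4H63.GO.Rep

/-!
# Reductions between oracles with one question for every question
-/

namespace Pool.Agent.J4H63.GO

open Pool.Agent.NPC Pool.Agent.H628R3.RO Pool.Agent.J4H63.ESY

/-- translate the answers -/
def trans (D : List Bool → List Bool) (τ : List Bool × Bool → Bool) (x e : List Bool) :
    List Bool :=
  e.foldl (fun acc b => acc ++ [τ ((D (pairBits x acc)).tail, b)]) []

theorem trans_concat (D : List Bool → List Bool) (τ : List Bool × Bool → Bool) (x e : List Bool)
    (b : Bool) : trans D τ x (e ++ [b]) =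
      trans D τ x e ++ [τ ((D (pairBits x (trans D τ x e))).tail, b)] := by
  simp [trans, List.foldl_append]

theorem length_trans (D : List Bool → List Bool) (τ : List Bool × Bool → Bool) (x e : List Bool) :
    (trans D τ x e).length = e.length := by
  induction e using List.reverseRecOn with
  | nil => rfl
  | append_singleton e b ih => rw [trans_concat, List.length_append, ih, List.length_append]; rfl

theorem p_trans {D : List Bool → List Bool} {τ : List Bool × Bool → Bool} (hD : Poly D)
    (hτ : Poly τ) : Poly (fun p : List Bool × List Bool => trans D τ p.1 p.2) := by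
  refine Poly.foldl (l := fun p : List Bool × List Bool => p.2)
    (s := fun _ => ([] : List Bool)) (F := fun p acc b =>
      acc ++ [τ ((D (pairBits p.1 acc)).tail, b)]) (Poly.snd Poly.id) (NPC.Poly.const _) ?_
    (Polynomial.C 4 * Polynomial.X + Polynomial.C 1) ?_
  · have h1 : Poly (fun p : (List Bool × List Bool) × List Bool × Bool => p.2.1) :=
      Poly.fst (Poly.snd Poly.id)
    have h2 : Poly (fun p : (List Bool × List Bool) × List Bool × Bool => p.2.2) :=
      Poly.snd (Poly.snd Poly.id)
    have h3 : Poly (fun p : (List Bool × List Bool) × List Bool × Bool => p.1.1) :=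
      Poly.fst (Poly.fst Poly.id)
    exact Poly.append h1 (Poly.cons (hτ.comp (Poly.pair (Poly.tail (hD.comp
      (H622R2.poly_pairBits h3 h1))) h2)) (NPC.Poly.const []))
  · intro p k _
    have h1 := sz_listBool_le (trans D τ p.1 (p.2.take k))
    rw [length_trans, List.length_take] at h1
    have h2 := length_lt_sz p.2
    have h3 : sz p = sz p.1 + sz p.2 + 1 := by
      rw [← sz_pair]
    simp only [Polynomial.eval_add, Polynomial.eval_mul, Polynomial.eval_C, Polynomial.eval_X]
    change sz (trans D τ p.1 (p.2.take k)) ≤ _
    omega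

/-- the new algorithm -/
def oneD (D : List Bool → List Bool) (g : List Bool → List Bool) (τ : List Bool × Bool → Bool)
    (y : List Bool) : List Bool :=
  if (D (pairBits (unpair y).1 (trans D τ (unpair y).1 (unpair y).2))).head? = some false then
    false :: g (D (pairBits (unpair y).1 (trans D τ (unpair y).1 (unpair y).2))).tail else
    D (pairBits (unpair y).1 (trans D τ (unpair y).1 (unpair y).2))

theorem poly_oneD {D g : List Bool → List Bool} {τ : List Bool × Bool → Bool} (hD : Poly D)
    (hg : Poly g) (hτ : Poly τ) : Poly (oneD D g τ) := by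
  have h1 : Poly (fun y => D (pairBits (unpair y).1 (trans D τ (unpair y).1 (unpair y).2))) :=
    hD.comp (H622R2.poly_pairBits (Poly.fst poly_unpair) ((p_trans hD hτ).comp poly_unpair))
  exact Poly.ite (Poly.decide_eq (Poly.head? h1) (NPC.Poly.const _))
    (Poly.cons (NPC.Poly.const false) (hg.comp (Poly.tail h1))) h1

/-- the new algorithm -/
def oneAlg (M : Alg) {g : List Bool → List Bool} {τ : List Bool × Bool → Bool}
    (hg : Poly g) (hτ : Poly τ) : Alg where
  D := oneD M.D g τ
  poly := H622R2.polyTime_of_poly_list (poly_oneD (H622R2.poly_of_polyTime M.poly) hg hτ)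
  p := M.p

theorem oneAlg_run (M : Alg) {g : List Bool → List Bool} {τ : List Bool × Bool → Bool}
    (hg : Poly g) (hτ : Poly τ) {O O' : Oracle} (h : ∀ q, O' q = τ (q, O (g q))) (x : List Bool) :
    ∀ (n : ℕ) (e : List Bool), (oneAlg M hg hτ).run O x n e = M.run O' x n (trans M.D τ x e) := by
  intro n
  induction n with
  | zero => intro e; rfl
  | succ n ih =>
    intro e
    rw [run_succ, run_succ]
    have h0 : (oneAlg M hg hτ).D (pairBits x e) =
        if (M.D (pairBits x (trans M.D τ x e))).head? = some false then
          false :: g (M.D (pairBits x (trans M.D τ x e))).tail else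
          M.D (pairBits x (trans M.D τ x e)) := by
      change oneD M.D g τ (pairBits x e) = _
      rw [oneD, unpair_pairBits]
    by_cases h1 : (M.D (pairBits x (trans M.D τ x e))).head? = some false
    · rw [if_pos h1] at h0
      have e1 : asking (oneAlg M hg hτ) x e = true := by rw [asking, h0]; simp
      have e2 : asking M x (trans M.D τ x e) = true := by rw [asking]; simpa using h1
      have e3 : nxt (oneAlg M hg hτ) x e = g (nxt M x (trans M.D τ x e)) := by
        rw [nxt, h0]; rfl
      rw [if_pos e1, if_pos e2, e3, ih, trans_concat]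
      congr 3
      exact (h _).symm
    · rw [if_neg h1] at h0
      have e1 : ¬ asking (oneAlg M hg hτ) x e = true := by rw [asking, h0]; simpa using h1
      have e2 : ¬ asking M x (trans M.D τ x e) = true := by rw [asking]; simpa using h1
      have e3 : nxt (oneAlg M hg hτ) x e = nxt M x (trans M.D τ x e) := by
        rw [nxt, h0]; rfl
      rw [if_neg e1, if_neg e2, e3]

/-- `O'` can be read off `O`, with one question for every question -/
def OneRed (O' O : Oracle) : Prop :=
  ∃ (g : List Bool → List Bool) (τ : List Bool × Bool → Bool), Poly g ∧ Poly τ ∧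
    ∀ q, O' q = τ (q, O (g q))

theorem OneRed.out {O' O : Oracle} (h : OneRed O' O) (M : Alg) :
    ∃ M' : Alg, ∀ x, M'.out O x = M.out O' x := by
  obtain ⟨g, τ, hg, hτ, h⟩ := h
  exact ⟨oneAlg M hg hτ, fun x => oneAlg_run M hg hτ h x _ []⟩

theorem OneRed.isFP {O' O : Oracle} (h : OneRed O' O) {F : List Bool → List Bool}
    (hF : IsFP O' F) : IsFP O F := by
  obtain ⟨M, hM⟩ := hF
  obtain ⟨M', h'⟩ := h.out M
  exact ⟨M', fun x => by rw [h', hM]⟩

theorem oneRed_left (A B : Oracle) : OneRed A (join A B) :=
  ⟨fun q => false :: q, fun p => p.2, Poly.cons (NPC.Poly.const _) Poly.id, Poly.snd Poly.id,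
    fun _ => rfl⟩

theorem oneRed_right (A B : Oracle) : OneRed B (join A B) :=
  ⟨fun q => true :: q, fun p => p.2, Poly.cons (NPC.Poly.const _) Poly.id, Poly.snd Poly.id,
    fun _ => rfl⟩

/-- the join with a finite oracle -/
theorem oneRed_finite (ρ : Facts) (E : Oracle) : OneRed (join (ofFacts ρ) E) E := by
  refine ⟨List.tail, fun p => if p.1.head? = some false then decide ((p.1.tail, true) ∈ ρ) else
    (decide (p.1.head? = some true) && p.2), Poly.tail Poly.id, ?_, ?_⟩
  · have h1 : Poly (fun p : List Bool × Bool => p.1) := Poly.fst Poly.id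
    refine Poly.ite (Poly.decide_eq (Poly.head? h1) (NPC.Poly.const _)) ?_
      (Poly.and (Poly.decide_eq (Poly.head? h1) (NPC.Poly.const _)) (Poly.snd Poly.id))
    exact (Poly.decide_mem (Poly.pair (Poly.tail h1) (NPC.Poly.const true))
      (NPC.Poly.const ρ)).congr fun a => decide_eq_decide.2 Iff.rfl
  · intro q
    rcases q with _ | ⟨b, q⟩
    · simp [join]
    · cases b with
      | false => simp [join, ofFacts]
      | true => simp [join]

/-- the join with the empty oracle -/
theorem oneRed_empty (G : Oracle) : OneRed (join G (fun _ => false)) G := by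
  refine ⟨List.tail, fun p => decide (p.1.head? = some false) && p.2, Poly.tail Poly.id,
    Poly.and (Poly.decide_eq (Poly.head? (Poly.fst Poly.id)) (NPC.Poly.const _))
      (Poly.snd Poly.id), fun q => ?_⟩
  rcases q with _ | ⟨b, q⟩
  · simp [join]
  · cases b <;> simp [join]

theorem OneRed.isNP {O' O : Oracle} (h : OneRed O' O) {L : Set (List Bool)} (hL : IsNP O' L) :
    IsNP O L := by
  obtain ⟨V, p, hV, h'⟩ := hL
  exact ⟨V, p, h.isFP hV, h'⟩

theorem OneRed.isCoNP {O' O : Oracle} (h : OneRed O' O) {L : Set (List Bool)}
    (hL : IsCoNP O' L) : IsCoNP O L := h.isNP hL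

end Pool.Agent.J4H63.GO
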