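import Pool.Agent.J4H63.GO.Tr
import Pool.Agent.J4H63.ESY.Final

/-!
# Checking a transcript for the join of an unknown oracle with a known one

The answers of the unknown oracle `B` become finitely many facts about `B`.
-/

namespace Pool.Agent.J4H63.GO

open Pool.Agent.NPC Pool.Agent.H628R3.RO Pool.Agent.J4H63.ESY

/-- finitely many facts about an oracle: strings with their membership -/
abbrev Facts : Type := List (List Bool × Bool)

/-- the facts are true for `B` -/
def Sat (ρ : Facts) (B : Oracle) : Prop := ∀ f ∈ ρ, B f.1 = f.2

theorem sat_append {ρ ρ' : Facts} {B : Oracle} : Sat (ρ ++ ρ') B ↔ Sat ρ B ∧ Sat ρ' B := by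
  unfold Sat
  simp only [List.mem_append]
  exact ⟨fun h => ⟨fun f hf => h f (Or.inl hf), fun f hf => h f (Or.inr hf)⟩,
    fun h f hf => hf.elim (h.1 f) (h.2 f)⟩

/-- the facts do not contradict each other -/
def consB (ρ : Facts) : Bool := ρ.all (fun f => ρ.all (fun g => !(decide (f.1 = g.1)) ||
  decide (f.2 = g.2)))

/-- an oracle for which the facts are true, if possible -/
def ofFacts (ρ : Facts) : Oracle := fun x => decide ((x, true) ∈ ρ)

theorem sat_ofFacts {ρ : Facts} (h : ∀ f ∈ ρ, ∀ g ∈ ρ, f.1 = g.1 → f.2 = g.2) :
    Sat ρ (ofFacts ρ) := by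
  rintro ⟨x, b⟩ hf
  unfold ofFacts
  cases b with
  | true => simpa using hf
  | false =>
    simp only [decide_eq_false_iff_not]
    intro h'
    have := h _ hf _ h' rfl
    simp at this

theorem consB_iff {ρ : Facts} : consB ρ = true ↔ ∃ B, Sat ρ B := by
  have h0 : consB ρ = true ↔ ∀ f ∈ ρ, ∀ g ∈ ρ, f.1 = g.1 → f.2 = g.2 := by
    simp only [consB, List.all_eq_true, Bool.or_eq_true, Bool.not_eq_true',
      decide_eq_false_iff_not, decide_eq_true_eq]
    exact forall₂_congr fun f _ => forall₂_congr fun g _ => by
      constructor
      · rintro (h | h) h'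
        · exact absurd h' h
        · exact h
      · intro h
        by_cases h' : f.1 = g.1
        · exact Or.inr (h h')
        · exact Or.inl h'
  rw [h0]
  constructor
  · intro h
    exact ⟨_, sat_ofFacts h⟩
  · rintro ⟨B, hB⟩ f hf g hg h
    rw [← hB f hf, ← hB g hg, h]

theorem p_consB {α : Type} [TEnc α] {ρ : α → Facts} (hρ : Poly ρ) :
    Poly (fun a => consB (ρ a)) := by
  refine Poly.all (p := fun a f => (ρ a).all (fun g => !(decide (f.1 = g.1)) ||
    decide (f.2 = g.2))) hρ ?_
  refine Poly.all (p := fun (q : α × (List Bool × Bool)) g => !(decide (q.2.1 = g.1)) ||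
    decide (q.2.2 = g.2)) (hρ.comp (Poly.fst Poly.id)) ?_
  have k1 : Poly (fun q : (α × (List Bool × Bool)) × (List Bool × Bool) => q.1.2) :=
    Poly.snd (Poly.fst Poly.id)
  have k2 : Poly (fun q : (α × (List Bool × Bool)) × (List Bool × Bool) => q.2) :=
    Poly.snd Poly.id
  exact Poly.or (Poly.not (Poly.decide_eq (Poly.fst k1) (Poly.fst k2)))
    (Poly.decide_eq (Poly.snd k1) (Poly.snd k2))

/-- one question `t.1.1`, its answer `t.1.2`, and the answer `t.2` of the known oracle to the
question without its first bit -/
def cE (t : (List Bool × Bool) × Bool) : Bool :=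
  if t.1.1.head? = some true then decide (t.1.2 = t.2) else
    if t.1.1.head? = some false then true else !t.1.2

/-- the check of the answers of the known oracle -/
def chkE (z : List ((List Bool × Bool) × Bool)) : Bool := z.all cE

/-- the facts about the unknown oracle -/
def facts (z : List (List Bool × Bool)) : Facts :=
  z.flatMap (fun t => if t.1.head? = some false then [(t.1.tail, t.2)] else [])

theorem p_chkE {α : Type} [TEnc α] {z : α → List ((List Bool × Bool) × Bool)} (hz : Poly z) :
    Poly (fun a => chkE (z a)) := by
  refine Poly.all (p := fun _ t => cE t) hz ?_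
  have k : Poly (fun q : α × ((List Bool × Bool) × Bool) => q.2) := Poly.snd Poly.id
  exact Poly.ite (Poly.decide_eq (Poly.head? (Poly.fst (Poly.fst k))) (NPC.Poly.const _))
    (Poly.decide_eq (Poly.snd (Poly.fst k)) (Poly.snd k))
    (Poly.ite (Poly.decide_eq (Poly.head? (Poly.fst (Poly.fst k))) (NPC.Poly.const _))
      (NPC.Poly.const true) (Poly.not (Poly.snd (Poly.fst k))))

theorem p_facts {α : Type} [TEnc α] {z : α → List (List Bool × Bool)} (hz : Poly z) :
    Poly (fun a => facts (z a)) := by
  refine Poly.flatMap (F := fun (_ : α) (t : List Bool × Bool) =>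
    if t.1.head? = some false then [(t.1.tail, t.2)] else []) hz ?_
  have k : Poly (fun q : α × (List Bool × Bool) => q.2) := Poly.snd Poly.id
  exact Poly.ite (Poly.decide_eq (Poly.head? (Poly.fst k)) (NPC.Poly.const _))
    (Poly.cons (Poly.pair (Poly.tail (Poly.fst k)) (Poly.snd k)) (NPC.Poly.const []))
    (NPC.Poly.const [])

/-- the answers are those of `join B E` iff the check is successful and the facts are true -/
theorem join_iff (B E : Oracle) : ∀ (q : List (List Bool)) (a : List Bool),
    q.length = a.length → (q.map (join B E) = a ↔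
      chkE ((q.zip a).zip (q.map (fun s => E s.tail))) = true ∧ Sat (facts (q.zip a)) B) := by
  intro q
  induction q with
  | nil =>
    intro a ha
    have : a = [] := by
      cases a with
      | nil => rfl
      | cons b a => simp at ha
    subst this
    simp [chkE, Sat, facts]
  | cons s q ih =>
    intro a ha
    cases a with
    | nil => simp at ha
    | cons b a =>
      have ha' : q.length = a.length := by simpa using ha
      have h1 := ih a ha'
      have h2 : facts ((s :: q).zip (b :: a)) =
          (if s.head? = some false then [(s.tail, b)] else []) ++ facts (q.zip a) := by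
        simp [facts]
      have h3 : chkE (((s :: q).zip (b :: a)).zip ((s :: q).map (fun s => E s.tail))) =
          (cE ((s, b), E s.tail) && chkE ((q.zip a).zip (q.map (fun s => E s.tail)))) := by
        simp [chkE]
      rw [h2, h3, sat_append, Bool.and_eq_true, List.map_cons, List.cons.injEq, h1]
      have h4 : join B E s = b ↔ cE ((s, b), E s.tail) = true ∧
          Sat (if s.head? = some false then [(s.tail, b)] else []) B := by
        rcases s with _ | ⟨c, s⟩
        · simp only [cE, List.head?_nil, reduceCtorEq, if_false, join, Bool.not_eq_true']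
          constructor
          · rintro rfl
            exact ⟨rfl, fun f hf => by simp at hf⟩
          · rintro ⟨h, -⟩
            exact h.symm
        · cases c with
          | true =>
            simp only [cE, List.head?_cons, if_true, List.tail_cons, join, decide_eq_true_eq,
              Option.some.injEq, Bool.true_eq_false, if_false]
            constructor
            · rintro rfl
              exact ⟨rfl, fun f hf => by simp at hf⟩
            · rintro ⟨h, -⟩
              exact h.symm
          | false =>
            simp only [cE, List.head?_cons, if_true, List.tail_cons, join,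
              Option.some.injEq, Bool.false_eq_true, if_false, true_and]
            constructor
            · rintro rfl f hf
              rw [List.mem_singleton] at hf
              rw [hf]
            · intro h
              exact h (s, b) (List.mem_singleton_self _)
      rw [h4]
      tauto

/-- Replay a transcript: `σ` are known facts, `v` is the input, `a` the transcript and `e` the
answers of the known oracle. The result is the output and all facts used. -/
def rep (M : Alg) (σ : Facts) (v a e : List Bool) : Option (List Bool × Facts) :=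
  if (valid M v a && (chkE (((qs M v a).zip a).zip e) &&
      consB (σ ++ facts ((qs M v a).zip a)))) = true then
    some (nxt M v a, σ ++ facts ((qs M v a).zip a)) else none

theorem p_rep (M : Alg) {α : Type} [TEnc α] {σ : α → Facts} {v a e : α → List Bool}
    (hσ : Poly σ) (hv : Poly v) (ha : Poly a) (he : Poly e) :
    Poly (fun t => rep M (σ t) (v t) (a t) (e t)) := by
  have h1 : Poly (fun t => (qs M (v t) (a t)).zip (a t)) := Poly.zip (p_qs M hv ha) ha
  have h2 : Poly (fun t => σ t ++ facts ((qs M (v t) (a t)).zip (a t))) :=
    Poly.append hσ (p_facts h1)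
  refine Poly.ite (p := fun t => (valid M (v t) (a t) &&
      (chkE (((qs M (v t) (a t)).zip (a t)).zip (e t)) &&
      consB (σ t ++ facts ((qs M (v t) (a t)).zip (a t))))) = true) (Poly.decide_bool ?_)
    (Poly.some (Poly.pair (p_nxt M hv ha) h2)) (NPC.Poly.const none)
  exact Poly.and (p_valid M hv ha) (Poly.and (p_chkE (Poly.zip h1 he)) (p_consB h2))

/-- the replay with the true answers of `E` -/
def repE (M : Alg) (E : Oracle) (σ : Facts) (v a : List Bool) : Option (List Bool × Facts) :=
  rep M σ v a ((qs M v a).map (fun s => E s.tail))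

theorem repE_sound {M : Alg} {E : Oracle} {σ ρ : Facts} {v a z : List Bool}
    (h : repE M E σ v a = some (z, ρ)) :
    (∀ B, Sat ρ B → Sat σ B ∧ M.out (join B E) v = some z) ∧ ∃ B, Sat ρ B := by
  unfold repE rep at h
  split_ifs at h with h1
  simp only [Bool.and_eq_true] at h1
  obtain ⟨h2, h3, h4⟩ := h1
  simp only [Option.some.injEq, Prod.mk.injEq] at h
  obtain ⟨rfl, rfl⟩ := h
  refine ⟨fun B hB => ?_, consB_iff.1 h4⟩
  rw [sat_append] at hB
  refine ⟨hB.1, out_of_transcript h2 ?_⟩
  exact (join_iff B E _ _ (length_qs M v a)).2 ⟨h3, hB.2⟩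

theorem repE_complete {M : Alg} {G E : Oracle} {σ : Facts} {v z : List Bool} (hσ : Sat σ G)
    (h : M.out (join G E) v = some z) : ∃ (a : List Bool) (ρ : Facts), Sat ρ G ∧
      repE M E σ v a = some (z, ρ) ∧ a.length < M.p.eval v.length ∧
        (trAlg M).out (join G E) v = some a := by
  obtain ⟨a, h1, h2, h3, h4, h5⟩ := exists_transcript h
  obtain ⟨h6, h7⟩ := (join_iff G E _ _ (length_qs M v a)).1 h2
  have h8 : Sat (σ ++ facts ((qs M v a).zip a)) G := sat_append.2 ⟨hσ, h7⟩
  refine ⟨a, _, h8, ?_, h4, h5⟩
  unfold repE rep
  rw [h1, h6, consB_iff.2 ⟨G, h8⟩, h3]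
  rfl

/-- functions of a replay are polynomial-time computable relative to `E` -/
theorem isFP_repE (M : Alg) (E : Oracle) {σ : List Bool → Facts} {v a : List Bool → List Bool}
    (hσ : Poly σ) (hv : Poly v) (ha : Poly a)
    {H : List Bool × Option (List Bool × Facts) → List Bool} (hH : Poly H) :
    IsFP E (fun y => H (y, repE M E (σ y) (v y) (a y))) := by
  have hQ : Poly (fun y => (qs M (v y) (a y)).map (fun s => s.tail)) :=
    NPC.Poly.map (F := fun (_ : List Bool) (s : List Bool) => s.tail) (p_qs M hv ha)
      (Poly.tail (Poly.snd Poly.id))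
  have h := IsFP.tt (A := E) (Q := fun y => (qs M (v y) (a y)).map (fun s => s.tail))
    (H := fun p => H (p.1, rep M (σ p.1) (v p.1) (a p.1) p.2)) hQ
    (hH.comp (Poly.pair (Poly.fst Poly.id) (p_rep M (hσ.comp (Poly.fst Poly.id))
      (hv.comp (Poly.fst Poly.id)) (ha.comp (Poly.fst Poly.id)) (Poly.snd Poly.id))))
  refine (congrArg (IsFP E) ?_).mp h
  funext y
  simp only [repE, List.map_map]
  rfl

end Pool.Agent.J4H63.GO
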