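import Pool.Agent.H628R3.RO.A3
import Pool.Agent.H628R3.RO.G1

/-!
# Transcripts of oracle algorithms

A transcript is the list of the answers to all questions. It is checked with nonadaptive
questions to the oracle.
-/

namespace Pool.Agent.J4H63.GO

open Pool.Agent.NPC Pool.Agent.H628R3.RO

/-- the proper initial segments of a list -/
def pre (a : List Bool) : List (List Bool) :=
  (a.foldl (fun (s : List Bool × List (List Bool)) b => (s.1 ++ [b], s.2 ++ [s.1])) ([], [])).2

theorem fold_pre (a : List Bool) :
    a.foldl (fun (s : List Bool × List (List Bool)) b => (s.1 ++ [b], s.2 ++ [s.1])) ([], []) =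
      (a, pre a) := by
  have h : (a.foldl (fun (s : List Bool × List (List Bool)) b =>
      (s.1 ++ [b], s.2 ++ [s.1])) ([], [])).1 = a := by
    induction a using List.reverseRecOn with
    | nil => rfl
    | append_singleton a b ih => rw [List.foldl_append, List.foldl_cons, List.foldl_nil, ih]
  exact Prod.ext h rfl

theorem pre_nil : pre [] = [] := rfl

theorem pre_concat (a : List Bool) (b : Bool) : pre (a ++ [b]) = pre a ++ [a] := by
  rw [pre, List.foldl_append, fold_pre]
  rfl

theorem length_pre (a : List Bool) : (pre a).length = a.length := by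
  induction a using List.reverseRecOn with
  | nil => rfl
  | append_singleton a b ih => rw [pre_concat, List.length_append, ih, List.length_append]; rfl

theorem length_of_mem_pre {a c : List Bool} (h : c ∈ pre a) : c.length ≤ a.length := by
  induction a using List.reverseRecOn with
  | nil => simp [pre_nil] at h
  | append_singleton a b ih =>
    rw [pre_concat, List.mem_append, List.mem_singleton] at h
    rw [List.length_append]
    rcases h with h | rfl
    · have := ih h
      omega
    · omega

theorem p_pre {α : Type} [TEnc α] {v : α → List Bool} (hv : Poly v) :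
    Poly (fun a => pre (v a)) := by
  obtain ⟨r, hr⟩ := hv.sz_le
  have h : Poly (fun a => (v a).foldl (fun (s : List Bool × List (List Bool)) b =>
      (s.1 ++ [b], s.2 ++ [s.1])) ([], [])) := by
    refine Poly.foldl (F := fun (_ : α) (s : List Bool × List (List Bool)) b =>
      (s.1 ++ [b], s.2 ++ [s.1])) hv (NPC.Poly.const _) ?_
      (Polynomial.C 8 * r * (r + Polynomial.C 1) + Polynomial.C 8 * (r + Polynomial.C 1)) ?_
    · have h1 : Poly (fun p : α × (List Bool × List (List Bool)) × Bool => p.2.1.1) :=
        Poly.fst (Poly.fst (Poly.snd Poly.id))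
      have h2 : Poly (fun p : α × (List Bool × List (List Bool)) × Bool => p.2.1.2) :=
        Poly.snd (Poly.fst (Poly.snd Poly.id))
      have h3 : Poly (fun p : α × (List Bool × List (List Bool)) × Bool => p.2.2) :=
        Poly.snd (Poly.snd Poly.id)
      exact Poly.pair (Poly.append h1 (Poly.cons h3 (NPC.Poly.const [])))
        (Poly.append h2 (Poly.cons h1 (NPC.Poly.const [])))
    · intro a k _
      rw [fold_pre, sz_pair]
      have e0 : ((v a).take k).length ≤ r.eval (sz a) := by
        have h1 := length_lt_sz (v a)
        have h2 := hr a
        rw [List.length_take]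
        omega
      have e1 := sz_listBool_le ((v a).take k)
      have e2 := sz_le_length_mul (pre ((v a).take k)) (4 * r.eval (sz a) + 1) fun c hc => by
        have h1 := sz_listBool_le c
        have h2 := length_of_mem_pre hc
        omega
      rw [length_pre] at e2
      have e3 := Nat.mul_le_mul_right (4 * r.eval (sz a) + 1 + 1) e0
      simp only [Polynomial.eval_add, Polynomial.eval_mul, Polynomial.eval_C]
      nlinarith
  exact (Poly.snd h).congr fun a => rfl

/-- does the algorithm ask a question after the answers `a`? -/
def asking (M : Alg) (x a : List Bool) : Bool := decide ((M.D (pairBits x a)).head? = some false)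

/-- the next question, or the output -/
def nxt (M : Alg) (x a : List Bool) : List Bool := (M.D (pairBits x a)).tail

theorem p_asking (M : Alg) {α : Type} [TEnc α] {x a : α → List Bool} (hx : Poly x) (ha : Poly a) :
    Poly (fun t => asking M (x t) (a t)) :=
  Poly.decide_eq (Poly.head? ((H622R2.poly_of_polyTime M.poly).comp (H622R2.poly_pairBits hx ha)))
    (NPC.Poly.const _)

theorem p_nxt (M : Alg) {α : Type} [TEnc α] {x a : α → List Bool} (hx : Poly x) (ha : Poly a) :
    Poly (fun t => nxt M (x t) (a t)) :=
  Poly.tail ((H622R2.poly_of_polyTime M.poly).comp (H622R2.poly_pairBits hx ha))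

theorem run_succ (M : Alg) (X : Oracle) (x : List Bool) (n : ℕ) (a : List Bool) :
    M.run X x (n + 1) a = if asking M x a = true then M.run X x n (a ++ [X (nxt M x a)])
      else some (nxt M x a) := by
  rw [A2.run_succ]
  simp only [asking, decide_eq_true_eq, nxt]

/-- the questions asked before the answers `a` were received -/
def qs (M : Alg) (x a : List Bool) : List (List Bool) := (pre a).map (nxt M x)

theorem p_qs (M : Alg) {α : Type} [TEnc α] {x a : α → List Bool} (hx : Poly x) (ha : Poly a) :
    Poly (fun t => qs M (x t) (a t)) :=
  NPC.Poly.map (F := fun t c => nxt M (x t) c) (p_pre ha)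
    (p_nxt M (hx.comp (Poly.fst Poly.id)) (Poly.snd Poly.id))

theorem qs_concat (M : Alg) (x a : List Bool) (b : Bool) :
    qs M x (a ++ [b]) = qs M x a ++ [nxt M x a] := by
  rw [qs, pre_concat, List.map_append]
  rfl

theorem length_qs (M : Alg) (x a : List Bool) : (qs M x a).length = a.length := by
  rw [qs, List.length_map, length_pre]

/-- all questions of the transcript are asked, the algorithm stops after it, in time -/
def valid (M : Alg) (x a : List Bool) : Bool :=
  (pre a).all (asking M x) && (!(asking M x a) && decide (a.length < M.p.eval x.length))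

theorem p_valid (M : Alg) {α : Type} [TEnc α] {x a : α → List Bool} (hx : Poly x) (ha : Poly a) :
    Poly (fun t => valid M (x t) (a t)) := by
  refine Poly.and (Poly.all (p := fun t c => asking M (x t) c) (p_pre ha)
    (p_asking M (hx.comp (Poly.fst Poly.id)) (Poly.snd Poly.id))) (Poly.and
      (Poly.not (p_asking M hx ha)) ?_)
  exact Poly.decide_lt (Poly.length ha) (UPoly.toPoly (UPoly.eval (UPoly.length hx) M.p))

/-- the transcript `a` is a beginning of the computation with oracle `X` -/
def Reached (M : Alg) (X : Oracle) (x a : List Bool) : Prop :=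
  (pre a).all (asking M x) = true ∧ (qs M x a).map X = a

theorem reached_nil (M : Alg) (X : Oracle) (x : List Bool) : Reached M X x [] := ⟨rfl, rfl⟩

theorem reached_concat {M : Alg} {X : Oracle} {x a : List Bool} {b : Bool} :
    Reached M X x (a ++ [b]) ↔ Reached M X x a ∧ asking M x a = true ∧ X (nxt M x a) = b := by
  unfold Reached
  rw [pre_concat, qs_concat, List.all_append, List.map_append, Bool.and_eq_true]
  simp only [List.all_cons, List.all_nil, Bool.and_true, List.map_cons, List.map_nil]
  constructor
  · rintro ⟨⟨h1, h2⟩, h3⟩
    have h4 := List.append_inj h3 (by rw [List.length_map, length_qs])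
    simp only [List.cons.injEq, and_true] at h4
    exact ⟨⟨h1, h4.1⟩, h2, h4.2⟩
  · rintro ⟨⟨h1, h2⟩, h3, h4⟩
    exact ⟨⟨h1, h3⟩, by rw [h2, h4]⟩

theorem run_reached {M : Alg} {X : Oracle} {x a : List Bool} (h : Reached M X x a) (n : ℕ) :
    M.run X x (a.length + n) [] = M.run X x n a := by
  induction a using List.reverseRecOn generalizing n with
  | nil => simp
  | append_singleton a b ih =>
    obtain ⟨h1, h2, h3⟩ := reached_concat.1 h
    have h4 := ih h1 (n + 1)
    rw [run_succ, if_pos h2, h3] at h4
    rw [← h4, List.length_append, List.length_singleton]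
    congr 1
    omega

/-- a complete transcript determines the output -/
theorem out_of_transcript {M : Alg} {X : Oracle} {x a : List Bool} (hv : valid M x a = true)
    (hq : (qs M x a).map X = a) : M.out X x = some (nxt M x a) := by
  simp only [valid, Bool.and_eq_true, Bool.not_eq_true', decide_eq_true_eq] at hv
  obtain ⟨h1, h2, h3⟩ := hv
  have h4 := run_reached (M := M) (X := X) ⟨h1, hq⟩ (M.p.eval x.length - a.length)
  have h5 : a.length + (M.p.eval x.length - a.length) = M.p.eval x.length := by omega
  rw [h5] at h4
  obtain ⟨m, hm⟩ : ∃ m, M.p.eval x.length - a.length = m + 1 :=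
    ⟨M.p.eval x.length - a.length - 1, by omega⟩
  rw [hm, run_succ, h2, if_neg (by simp)] at h4
  exact h4

/-- the algorithm whose output is the transcript -/
def trD (M : Alg) (y : List Bool) : List Bool :=
  if (M.D y).head? = some false then M.D y else true :: (unpair y).2

theorem poly_trD (M : Alg) : Poly (trD M) := by
  have h := H622R2.poly_of_polyTime M.poly
  exact Poly.ite (Poly.decide_eq (Poly.head? h) (NPC.Poly.const _)) h
    (Poly.cons (NPC.Poly.const true) (Poly.snd poly_unpair))

/-- the algorithm whose output is the transcript -/
def trAlg (M : Alg) : Alg where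
  D := trD M
  poly := H622R2.polyTime_of_poly_list (poly_trD M)
  p := M.p

theorem trAlg_run (M : Alg) (X : Oracle) (x : List Bool) (n : ℕ) (a : List Bool) :
    (trAlg M).run X x (n + 1) a = if asking M x a = true then
      (trAlg M).run X x n (a ++ [X (nxt M x a)]) else some a := by
  rw [run_succ]
  have h0 : (trAlg M).D (pairBits x a) = if (M.D (pairBits x a)).head? = some false then
      M.D (pairBits x a) else true :: a := by
    change trD M (pairBits x a) = _
    rw [trD, unpair_pairBits]
  by_cases h : (M.D (pairBits x a)).head? = some false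
  · rw [if_pos h] at h0
    have e1 : asking (trAlg M) x a = true := by rw [asking, h0]; simpa using h
    have e2 : asking M x a = true := by rw [asking]; simpa using h
    have e3 : nxt (trAlg M) x a = nxt M x a := by rw [nxt, nxt, h0]
    rw [if_pos e1, if_pos e2, e3]
  · rw [if_neg h] at h0
    have e1 : ¬ asking (trAlg M) x a = true := by rw [asking, h0]; simp
    have e2 : ¬ asking M x a = true := by rw [asking]; simpa using h
    have e3 : nxt (trAlg M) x a = a := by rw [nxt, h0]; rfl
    rw [if_neg e1, if_neg e2, e3]

theorem exists_transcript_aux {M : Alg} {X : Oracle} {x z : List Bool} : ∀ (n : ℕ)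
    (a : List Bool), Reached M X x a → M.run X x n a = some z → ∃ a' : List Bool,
      Reached M X x a' ∧ asking M x a' = false ∧ nxt M x a' = z ∧ a'.length < a.length + n ∧
        (trAlg M).run X x n a = some a' := by
  intro n
  induction n with
  | zero => intro a _ h; simp [Alg.run] at h
  | succ n ih =>
    intro a ha h
    rw [run_succ] at h
    rw [trAlg_run]
    by_cases h1 : asking M x a = true
    · rw [if_pos h1] at h
      rw [if_pos h1]
      obtain ⟨a', h2, h3, h4, h5, h6⟩ := ih _ (reached_concat.2 ⟨ha, h1, rfl⟩) h
      refine ⟨a', h2, h3, h4, ?_, h6⟩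
      rw [List.length_append, List.length_singleton] at h5
      omega
    · rw [if_neg h1] at h
      rw [if_neg h1]
      exact ⟨a, ha, by simpa using h1, by simpa using h, by omega, rfl⟩

/-- every computation has a transcript, and it can be computed -/
theorem exists_transcript {M : Alg} {X : Oracle} {x z : List Bool} (h : M.out X x = some z) :
    ∃ a : List Bool, valid M x a = true ∧ (qs M x a).map X = a ∧ nxt M x a = z ∧
      a.length < M.p.eval x.length ∧ (trAlg M).out X x = some a := by
  obtain ⟨a, h1, h2, h3, h4, h5⟩ := exists_transcript_aux _ _ (reached_nil M X x) h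
  simp only [List.length_nil, zero_add] at h4
  refine ⟨a, ?_, h1.2, h3, h4, h5⟩
  simp only [valid, Bool.and_eq_true, Bool.not_eq_true', decide_eq_true_eq]
  exact ⟨h1.1, h2, h4⟩

end Pool.Agent.J4H63.GO
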